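import Pool.Agent.J6H11.Hlp.Hier
import Pool.Agent.J6H27.MPH.Game5
import Pool.Agent.J6H27.MPH.Ma3

/-!
# Arthur-Merlin games with help
-/

set_option autoImplicit false
set_option linter.unusedSectionVars false

namespace Pool.Agent.J6H11.Hlp

open Finset DomAC0 Filter Pool.Agent.J6H27.MPH Pool.Agent.J6H7.Chain Pool.Agent.H520R2
  Pool.Agent.H520R2.NM

theorem nn_le_self {δ : ℝ} (hδ : δ ≤ 1) {N : ℕ} (hN : 1 ≤ N) : nn δ N ≤ N := by
  have hN1 : (1 : ℝ) ≤ N := by exact_mod_cast hN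
  have h2 : (N : ℝ) ^ δ ≤ (N : ℝ) ^ (1 : ℝ) := Real.rpow_le_rpow_of_exponent_le hN1 hδ
  rw [Real.rpow_one] at h2
  exact_mod_cast (nn_le δ N).trans h2

/-- the number of gates for the majorities -/
theorem gates_le {N n L : ℕ} (hN : 3 ≤ N) (hn : n ≤ N) (hL : L ≤ 2 * N * N) :
    Nat.log 2 n ^ 3 + L ≤ N ^ 3 := by
  have hlog : Nat.log 2 n ^ 3 ≤ Nat.log 2 N ^ 3 := Nat.pow_le_pow_left (Nat.log_mono_right hn) 3
  have h5 := log_cube_le (by omega : N ≠ 0)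
  have h6 : 3 * N ^ 2 ≤ N ^ 3 := by
    rw [pow_succ N 2, mul_comm]
    exact Nat.mul_le_mul_left _ hN
  nlinarith

/-- exponents -/
theorem exps {δ1 e : ℝ} (he : 0 < e) {δ : ℝ} (hδ : δ ≤ δ1 / 2 * e) {N : ℕ}
    (hN : 1 ≤ N) (hge : (N : ℝ) ^ (δ1 / 2) ≤ nn δ1 N) :
    (N : ℝ) ^ δ ≤ (nn δ1 N : ℝ) ^ e ∧ (nn δ1 N : ℝ) ^ (-e) ≤ (N : ℝ) ^ (-δ) := by
  have hN1 : (1 : ℝ) ≤ N := by exact_mod_cast hN
  have hN0 : (0 : ℝ) < N := by linarith
  have h1 : (N : ℝ) ^ δ ≤ (nn δ1 N : ℝ) ^ e := by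
    calc (N : ℝ) ^ δ ≤ (N : ℝ) ^ (δ1 / 2 * e) := Real.rpow_le_rpow_of_exponent_le hN1 hδ
      _ = ((N : ℝ) ^ (δ1 / 2)) ^ e := Real.rpow_mul hN0.le _ _
      _ ≤ _ := Real.rpow_le_rpow (by positivity) hge he.le
  refine ⟨h1, ?_⟩
  have h0 : (0 : ℝ) ≤ nn δ1 N := Nat.cast_nonneg _
  rw [Real.rpow_neg h0, Real.rpow_neg hN0.le]
  exact inv_anti₀ (by positivity) h1

theorem game_help (k : ℕ) (ε : ℝ) (hε : 0 < ε) (a : ℕ) :
    ∃ (δ : ℝ) (f : ∀ N : ℕ, (Fin N → Bool) → Prop), 0 < δ ∧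
      (∀ᶠ N : ℕ in atTop, Level (Nat.log 2 N ^ 3) (N ^ 3) 1 false (f N)) ∧
      ∀ c : ℕ, ∀ᶠ N : ℕ in atTop, ∀ (p : ℕ) [Fact p.Prime] (T : ℕ)
        (help : (Fin N → Bool) → Fin T → ZMod p) (g : ℕ)
        (v : (Fin T → ZMod p) → (Fin N → Bool) → ℝ),
        (p : ℝ) ≤ (N : ℝ) ^ δ → (T : ℝ) ≤ (N : ℝ) ^ (1 - ε) → Help a help →
        (g : ℝ) ≤ (N : ℝ) ^ δ → (∀ w, Game g (N ^ c) k (v w)) →
        ∀ α : ℝ, ¬ ((∀ x, f N x → α + (N : ℝ) ^ (-δ) ≤ v (help x) x) ∧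
          ∀ x, ¬ f N x → v (help x) x ≤ α) := by
  obtain ⟨f, hup, hlow⟩ := am_rounds (fun _ => k) (by
    have h1 : Tendsto (fun N : ℕ => Nat.log 2 (Nat.log 2 N)) atTop atTop :=
      tendsto_log.comp tendsto_log
    filter_upwards [h1.eventually (eventually_ge_atTop (k + 1))] with N hN
    nlinarith)
  obtain ⟨δ1, hδ1, hδ18, htr⟩ := transferH ε hε a
  obtain ⟨e, he⟩ : ∃ e : ℝ, e = 1 / (16 * (k + 3 : ℕ)) := ⟨_, rfl⟩
  have he0 : 0 < e := by rw [he]; positivity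
  refine ⟨min δ1 (δ1 / 2 * e), famM f (nn δ1), lt_min hδ1 (by positivity), ?_, ?_⟩
  · filter_upwards [(nn_tendsto hδ1).eventually hup, (nn_tendsto hδ1).eventually_gt_atTop 0,
      eventually_ge_atTop 3] with N h1 hn hN
    have hnN : nn δ1 N ≤ N := nn_le_self (by linarith) (by omega)
    obtain ⟨L, hL1, hL2, hL3⟩ := maj_prog' (N := N) hn
    have hlog : Nat.log 2 (nn δ1 N) ^ 3 ≤ Nat.log 2 N ^ 3 :=
      Nat.pow_le_pow_left (Nat.log_mono_right hnN) 3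
    have h3 := (Level.precomp hL1 hL3 h1).gmono hlog
    refine (Level.smono (gates_le hN hnN hL2) h3).congr fun x => ?_
    constructor
    · intro h
      exact ⟨hn, h⟩
    · rintro ⟨_, h⟩
      exact h
  · intro c
    obtain ⟨c', hc'⟩ := exists_nat_ge (2 * c / δ1)
    filter_upwards [(nn_tendsto hδ1).eventually (hlow c'), (nn_tendsto hδ1).eventually_gt_atTop 0,
      nn_ge hδ1, htr, eventually_ge_atTop 1] with N h1 hn hge htr hN
    intro p _ T help g v hp hT hH hg hv α ⟨hS1, hS2⟩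
    have hN1 : (1 : ℝ) ≤ N := by exact_mod_cast hN
    have hδ' : (N : ℝ) ^ min δ1 (δ1 / 2 * e) ≤ (N : ℝ) ^ δ1 :=
      Real.rpow_le_rpow_of_exponent_le hN1 (min_le_left _ _)
    obtain ⟨σ, w, hσ, hw⟩ := htr p (nn δ1 N) T hn help (hp.trans hδ') (nn_le δ1 N) hT hH
    obtain ⟨hx1, hx2⟩ := exps he0 (min_le_right δ1 (δ1 / 2 * e)) hN hge
    have hsize : N ^ c ≤ nn δ1 N ^ c' := by
      have h2 : (N : ℝ) ^ c ≤ (nn δ1 N : ℝ) ^ c' := by
        rw [← Real.rpow_natCast, ← Real.rpow_natCast]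
        have h3 : (N : ℝ) ^ (δ1 / 2 * c') ≤ (nn δ1 N : ℝ) ^ (c' : ℝ) := by
          rw [Real.rpow_mul (by linarith)]
          exact Real.rpow_le_rpow (by positivity) hge (by positivity)
        refine le_trans ?_ h3
        apply Real.rpow_le_rpow_of_exponent_le hN1
        rw [div_le_iff₀ hδ1] at hc'
        linarith
      exact_mod_cast h2
    have hgame : ∀ {k : ℕ} {u : (Fin N → Bool) → ℝ}, Game g (N ^ c) k u →
        Game g (nn δ1 N ^ c') k u := by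
      intro k
      induction k with
      | zero =>
        rintro u ⟨Ω, i, p, C, h0, h1, hC, hv⟩
        exact ⟨Ω, i, p, C, h0, h1, fun ω => MComp.smono (hC ω) hsize, hv⟩
      | succ k ih =>
        rintro u ⟨Ω, i, p, D, h0, h1, hD, hv⟩
        exact ⟨Ω, i, p, D, h0, h1, fun ω u => ih (hD ω u), hv⟩
    have hfam : ∀ x, famM f (nn δ1) N (sub σ x) ↔ f (nn δ1 N) x := by
      intro x
      constructor
      · rintro ⟨_, h⟩
        rwa [hσ] at h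
      · intro h
        refine ⟨hn, ?_⟩
        rwa [hσ]
    refine h1 g (fun x => v w (sub σ x)) ?_ ((hgame (hv w)).subst σ) α ⟨?_, ?_⟩
    · rw [← he]
      exact hg.trans hx1
    · intro x hx
      have h2 := hS1 (sub σ x) ((hfam x).2 hx)
      rw [hw] at h2
      refine le_trans ?_ h2
      rw [← he]
      linarith
    · intro x hx
      have h2 := hS2 (sub σ x) (fun h => hx ((hfam x).1 h))
      rwa [hw] at h2

theorem ma_help (ε : ℝ) (hε : 0 < ε) (a : ℕ) :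
    ∃ (δ : ℝ) (Y Z : ∀ N : ℕ, (Fin N → Bool) → Prop), 0 < δ ∧
      (∀ᶠ N : ℕ in atTop, ∃ v : (Fin N → Bool) → ℝ,
        ArthurMerlin (Nat.log 2 N ^ 3) (N ^ 3) v ∧
        (∀ x, Y N x → v x = 1) ∧ ∀ x, Z N x → v x ≤ (N : ℝ) ^ (-δ)) ∧
      ∀ c : ℕ, ∀ᶠ N : ℕ in atTop, ∀ (p : ℕ) [Fact p.Prime] (T : ℕ)
        (help : (Fin N → Bool) → Fin T → ZMod p) (g : ℕ)
        (v : (Fin T → ZMod p) → (Fin N → Bool) → ℝ),
        (p : ℝ) ≤ (N : ℝ) ^ δ → (T : ℝ) ≤ (N : ℝ) ^ (1 - ε) → Help a help →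
        (g : ℝ) ≤ (N : ℝ) ^ δ → (∀ w, MerlinArthur g (N ^ c) (v w)) →
        ∀ α : ℝ, ¬ ((∀ x, Y N x → α + (N : ℝ) ^ (-δ) ≤ v (help x) x) ∧
          ∀ x, Z N x → v (help x) x ≤ α) := by
  obtain ⟨e, Y, Z, he0, hup, hlow⟩ := am_vs_ma
  obtain ⟨δ1, hδ1, hδ18, htr⟩ := transferH ε hε a
  refine ⟨min δ1 (δ1 / 2 * e), famM Y (nn δ1), famM Z (nn δ1), lt_min hδ1 (by positivity),
    ?_, ?_⟩
  · filter_upwards [(nn_tendsto hδ1).eventually hup, (nn_tendsto hδ1).eventually_gt_atTop 0,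
      nn_ge hδ1, eventually_ge_atTop 3] with N h1 hn hge hN
    have hnN : nn δ1 N ≤ N := nn_le_self (by linarith) (by omega)
    obtain ⟨hx1, hx2⟩ := exps he0 (min_le_right δ1 (δ1 / 2 * e)) (by omega) hge
    obtain ⟨L, hL1, hL2, hL3⟩ := maj_prog' (N := N) hn
    have hlog : Nat.log 2 (nn δ1 N) ^ 3 ≤ Nat.log 2 N ^ 3 :=
      Nat.pow_le_pow_left (Nat.log_mono_right hnN) 3
    obtain ⟨v, ⟨Ω, i, p, C, h0, hs, hC, hv⟩, hY, hZ⟩ := h1
    refine ⟨fun x => v (maj (bk hn) x), ⟨Ω, i, p, fun ω u x =>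
      C ω (fun j => u (Fin.castLE hlog j)) (maj (bk hn) x), h0, hs, fun ω u => ?_, fun x => ?_⟩,
      ?_, ?_⟩
    · exact MComp.smono (MComp.precomp hL1 hL3 (hC ω _)) (gates_le hN hnN hL2)
    · show v (maj (bk hn) x) = _
      rw [hv]
      refine sum_congr rfl fun ω _ => ?_
      congr 2
      apply propext
      constructor
      · rintro ⟨u, hu⟩
        refine ⟨fun j => if h : j.val < Nat.log 2 (nn δ1 N) ^ 3 then u ⟨j, h⟩ else false, ?_⟩
        have h3 : (fun j : Fin (Nat.log 2 (nn δ1 N) ^ 3) =>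
            (fun j : Fin (Nat.log 2 N ^ 3) => if h : j.val < Nat.log 2 (nn δ1 N) ^ 3 then
              u ⟨j, h⟩ else false) (Fin.castLE hlog j)) = u := by
          funext j
          simp
        show C ω _ (maj (bk hn) x) = true
        rw [h3]
        exact hu
      · rintro ⟨u, hu⟩
        exact ⟨_, hu⟩
    · rintro x ⟨_, hx⟩
      exact hY _ hx
    · rintro x ⟨_, hx⟩
      exact (hZ _ hx).trans hx2
  · intro c
    obtain ⟨c', hc'⟩ := exists_nat_ge (2 * c / δ1)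
    filter_upwards [(nn_tendsto hδ1).eventually (hlow c'), (nn_tendsto hδ1).eventually_gt_atTop 0,
      nn_ge hδ1, htr, eventually_ge_atTop 1] with N h1 hn hge htr hN
    intro p _ T help g v hp hT hH hg hv α ⟨hS1, hS2⟩
    have hN1 : (1 : ℝ) ≤ N := by exact_mod_cast hN
    have hδ' : (N : ℝ) ^ min δ1 (δ1 / 2 * e) ≤ (N : ℝ) ^ δ1 :=
      Real.rpow_le_rpow_of_exponent_le hN1 (min_le_left _ _)
    obtain ⟨σ, w, hσ, hw⟩ := htr p (nn δ1 N) T hn help (hp.trans hδ') (nn_le δ1 N) hT hH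
    obtain ⟨hx1, hx2⟩ := exps he0 (min_le_right δ1 (δ1 / 2 * e)) hN hge
    have hsize : N ^ c ≤ nn δ1 N ^ c' := by
      have h2 : (N : ℝ) ^ c ≤ (nn δ1 N : ℝ) ^ c' := by
        rw [← Real.rpow_natCast, ← Real.rpow_natCast]
        have h3 : (N : ℝ) ^ (δ1 / 2 * c') ≤ (nn δ1 N : ℝ) ^ (c' : ℝ) := by
          rw [Real.rpow_mul (by linarith)]
          exact Real.rpow_le_rpow (by positivity) hge (by positivity)
        refine le_trans ?_ h3
        apply Real.rpow_le_rpow_of_exponent_le hN1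
        rw [div_le_iff₀ hδ1] at hc'
        linarith
      exact_mod_cast h2
    have hfam : ∀ (f : ∀ N : ℕ, (Fin N → Bool) → Prop) x,
        famM f (nn δ1) N (sub σ x) ↔ f (nn δ1 N) x := by
      intro f x
      constructor
      · rintro ⟨_, h⟩
        rwa [hσ] at h
      · intro h
        refine ⟨hn, ?_⟩
        rwa [hσ]
    obtain ⟨D, hD, hv'⟩ := hv w
    refine h1 g (fun x => v w (sub σ x)) (hg.trans hx1)
      ⟨fun u x => D u (sub σ x), fun u => ?_, fun x => hv' _⟩ α ⟨?_, ?_⟩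
    · obtain ⟨Ω, i, p, C, h0, hs, hC, hv''⟩ := hD u
      exact ⟨Ω, i, p, fun ω z => C ω (sub σ z), h0, hs,
        fun ω => MComp.smono (Level.base_sub (hC ω) σ) hsize, fun x => hv'' _⟩
    · intro x hx
      have h2 := hS1 (sub σ x) ((hfam Y x).2 hx)
      rw [hw] at h2
      refine le_trans ?_ h2
      linarith
    · intro x hx
      have h2 := hS2 (sub σ x) ((hfam Z x).2 hx)
      rwa [hw] at h2

end Pool.Agent.J6H11.Hlp
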