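import Pool.Agent.J6H11.Hlp.Deg

/-!
# Monotone cubes on which functions of small degree are constant
-/

set_option autoImplicit false
set_option linter.unusedSectionVars false

namespace Pool.Agent.J6H11.Hlp

open Finset

section
variable {p : ℕ} [Fact p.Prime] {V : Type} [DecidableEq V]

/-- the variables in `D` are replaced by the variable of their block -/
def sig {n : ℕ} (b : V → Fin n) (z : V → Bool) (D : Finset V) : V → Bool ⊕ Fin n := fun v =>
  if v ∈ D then Sum.inr (b v) else Sum.inl (z v)

/-- the set of values -/
def vals {n h : ℕ} (f : Fin h → Option (Fin n)) : Fin n → Bool := fun i => decide (∃ t, f t = some i)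

theorem exists_vals {n h : ℕ} (x : Fin n → Bool) (hx : (univ.filter fun i => x i = true).card ≤ h) :
    ∃ f : Fin h → Option (Fin n), vals f = x := by
  obtain ⟨B, hB⟩ : ∃ B : Finset (Fin n), B = univ.filter fun i => x i = true := ⟨_, rfl⟩
  rw [← hB] at hx
  let e := B.equivFin
  refine ⟨fun t => if ht : (t : ℕ) < B.card then some (e.symm ⟨t, ht⟩).1 else none, ?_⟩
  funext i
  unfold vals
  by_cases hi : i ∈ B
  · have hxi : x i = true := by
      rw [hB] at hi
      exact (mem_filter.1 hi).2
    rw [hxi, decide_eq_true_eq]
    refine ⟨⟨e ⟨i, hi⟩, (e ⟨i, hi⟩).2.trans_le hx⟩, ?_⟩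
    simp only
    rw [dif_pos (e ⟨i, hi⟩).2]
    simp
  · have hxi : x i = false := by
      by_contra h
      apply hi
      rw [hB]
      exact mem_filter.2 ⟨mem_univ _, by simpa using h⟩
    rw [hxi, decide_eq_false_iff_not]
    rintro ⟨t, ht⟩
    simp only at ht
    split_ifs at ht with h
    rw [Option.some_inj] at ht
    exact hi (ht ▸ (e.symm ⟨t, h⟩).2)

theorem const_mem (c : ZMod p) (d : ℕ) : (fun _ : V → Bool => c) ∈ Deg V p d := by
  have h := Submodule.smul_mem (Deg V p d) c (Deg_mono (Nat.zero_le d) one_mem)
  have e : (c • (1 : (V → Bool) → ZMod p)) = fun _ => c := by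
    funext x
    simp
  rwa [e] at h

theorem cube {n T h : ℕ} (b : V → Fin n) (z : V → Bool) (A : Finset V) (hA : ∀ v ∈ A, z v = false)
    (q : Fin T → (V → Bool) → ZMod p) (hq : ∀ j, q j ∈ Deg V p h)
    (hcard : ∀ i, T * (n + 1) ^ h * ((p - 1) * h) < (A.filter fun v => b v = i).card) :
    ∃ D ⊆ A, (∀ i, ∃ v ∈ D, b v = i) ∧ ∀ x j, q j (sb (sig b z D) x) = q j z := by
  suffices H : ∀ k, k ≤ n → ∃ D ⊆ A, (∀ v ∈ D, (b v : ℕ) < k) ∧
      (∀ i : Fin n, (i : ℕ) < k → ∃ v ∈ D, b v = i) ∧ ∀ x j, q j (sb (sig b z D) x) = q j z by
    obtain ⟨D, h1, -, h2, h3⟩ := H n le_rfl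
    exact ⟨D, h1, fun i => h2 i i.2, h3⟩
  intro k
  induction k with
  | zero =>
    intro _
    refine ⟨∅, empty_subset _, by simp, by simp, fun x j => ?_⟩
    congr 1
  | succ k ih =>
    intro hk
    obtain ⟨D, h1, h2, h3, h4⟩ := ih (by omega)
    let κ : Fin n := ⟨k, by omega⟩
    let U := {v // v ∈ A.filter fun v => b v = κ}
    have hUD : ∀ v ∈ A.filter (fun v => b v = κ), v ∉ D := by
      intro v hv hD
      have h5 := h2 v hD
      rw [(mem_filter.1 hv).2] at h5
      exact absurd h5 (lt_irrefl k)
    -- the conditions
    let τ : (Fin n → Bool) → V → Bool ⊕ U := fun x v =>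
      if hv : v ∈ A.filter (fun v => b v = κ) then Sum.inr ⟨v, hv⟩ else Sum.inl (sb (sig b z D) x v)
    let g : Fin T × (Fin h → Option (Fin n)) → (U → Bool) → ZMod p := fun c y =>
      q c.1 (sb (τ (vals c.2)) y) - q c.1 z
    have hg : ∀ c, g c ∈ Deg U p h := fun c =>
      Submodule.sub_mem _ (sb_mem (hq c.1)) (const_mem _ _)
    have hτ0 : ∀ x, sb (τ x) (fun _ => false) = sb (sig b z D) x := by
      intro x
      funext v
      by_cases hv : v ∈ A.filter (fun v => b v = κ)
      · have e1 : τ x v = Sum.inr ⟨v, hv⟩ := dif_pos hv
        have e2 : sig b z D v = Sum.inl (z v) := if_neg (hUD v hv)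
        simp only [sb, e1, e2]
        exact (hA v (mem_filter.1 hv).1).symm
      · have e1 : τ x v = Sum.inl (sb (sig b z D) x v) := dif_neg hv
        unfold sb
        rw [e1]
        rfl
    have hg0 : ∀ c, g c (fun _ => false) = 0 := by
      intro c
      simp only [g]
      rw [hτ0, h4, sub_self]
    have hcd : Fintype.card (Fin T × (Fin h → Option (Fin n))) * ((p - 1) * h) < Fintype.card U := by
      rw [Fintype.card_prod, Fintype.card_fun, Fintype.card_option, Fintype.card_fin,
        Fintype.card_fin, Fintype.card_fin, Fintype.card_coe]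
      exact hcard κ
    obtain ⟨y, ⟨⟨v0, hv0⟩, hy0⟩, hy⟩ := cw g h hg hg0 hcd
    let Y : Finset V := (A.filter fun v => b v = κ).filter fun v => ∃ hv, y ⟨v, hv⟩ = true
    refine ⟨D ∪ Y, ?_, ?_, ?_, ?_⟩
    · exact union_subset h1 ((filter_subset _ _).trans (filter_subset _ _))
    · intro v hv
      rcases mem_union.1 hv with hv | hv
      · have := h2 v hv
        omega
      · rw [(mem_filter.1 (mem_filter.1 hv).1).2]
        exact Nat.lt_succ_self k
    · intro i hi
      rcases Nat.lt_succ_iff_lt_or_eq.1 hi with hi | hi
      · obtain ⟨v, hv, e⟩ := h3 i hi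
        exact ⟨v, mem_union_left _ hv, e⟩
      · refine ⟨v0, mem_union_right _ (mem_filter.2 ⟨hv0, hv0, hy0⟩), ?_⟩
        rw [(mem_filter.1 hv0).2]
        exact Fin.ext hi.symm
    · intro x j
      by_cases hx : x κ = true
      · -- all vectors of the cube
        have e0 : sb (sig b z (D ∪ Y)) x = sb (τ x) y := by
          funext v
          by_cases hv : v ∈ A.filter (fun v => b v = κ)
          · have e1 : τ x v = Sum.inr ⟨v, hv⟩ := dif_pos hv
            simp only [sb, e1]
            by_cases hvy : y ⟨v, hv⟩ = true
            · have e2 : sig b z (D ∪ Y) v = Sum.inr (b v) :=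
                if_pos (mem_union_right _ (mem_filter.2 ⟨hv, hv, hvy⟩))
              simp only [e2]
              rw [(mem_filter.1 hv).2, hx, hvy]
            · have e2 : sig b z (D ∪ Y) v = Sum.inl (z v) := by
                refine if_neg fun hh => ?_
                rcases mem_union.1 hh with hh | hh
                · exact hUD v hv hh
                · obtain ⟨_, hh⟩ := (mem_filter.1 hh).2
                  exact hvy hh
              simp only [e2]
              rw [hA v (mem_filter.1 hv).1]
              simpa using hvy
          · have e1 : τ x v = Sum.inl (sb (sig b z D) x v) := dif_neg hv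
            simp only [sb, e1]
            by_cases hvD : v ∈ D
            · have e2 : sig b z (D ∪ Y) v = Sum.inr (b v) := if_pos (mem_union_left _ hvD)
              have e3 : sig b z D v = Sum.inr (b v) := if_pos hvD
              simp only [e2, e3]
            · have e2 : sig b z (D ∪ Y) v = Sum.inl (z v) := by
                refine if_neg fun hh => ?_
                rcases mem_union.1 hh with hh | hh
                · exact hvD hh
                · exact hv (mem_filter.1 hh).1
              have e3 : sig b z D v = Sum.inl (z v) := if_neg hvD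
              simp only [e2, e3]
        rw [e0]
        -- a function of x of small degree
        let τ' : V → Bool ⊕ Fin n := fun v =>
          if hv : v ∈ A.filter (fun v => b v = κ) then Sum.inl (y ⟨v, hv⟩) else sig b z D v
        have e4 : ∀ x, sb τ' x = sb (τ x) y := by
          intro x
          funext v
          by_cases hv : v ∈ A.filter (fun v => b v = κ)
          · have e1 : τ x v = Sum.inr ⟨v, hv⟩ := dif_pos hv
            have e2 : τ' v = Sum.inl (y ⟨v, hv⟩) := dif_pos hv
            simp only [sb, e1, e2]
          · have e1 : τ x v = Sum.inl (sb (sig b z D) x v) := dif_neg hv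
            have e2 : τ' v = sig b z D v := dif_neg hv
            simp only [sb, e1, e2]
        have h5 : (fun x => q j (sb τ' x) - q j z) ∈ Deg (Fin n) p h :=
          Submodule.sub_mem _ (sb_mem (hq j)) (const_mem _ _)
        have h6 := low_weight h5 (fun x hx => by
          obtain ⟨f, rfl⟩ := exists_vals x hx
          rw [e4]
          exact hy (j, f)) x
        rw [e4] at h6
        exact sub_eq_zero.1 h6
      · have e0 : sb (sig b z (D ∪ Y)) x = sb (sig b z D) x := by
          funext v
          by_cases hvD : v ∈ D
          · have e2 : sig b z (D ∪ Y) v = Sum.inr (b v) := if_pos (mem_union_left _ hvD)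
            have e3 : sig b z D v = Sum.inr (b v) := if_pos hvD
            simp only [sb, e2, e3]
          · have e3 : sig b z D v = Sum.inl (z v) := if_neg hvD
            by_cases hvY : v ∈ Y
            · have e2 : sig b z (D ∪ Y) v = Sum.inr (b v) := if_pos (mem_union_right _ hvY)
              simp only [sb, e2, e3]
              rw [(mem_filter.1 (mem_filter.1 hvY).1).2, hA v (mem_filter.1 (mem_filter.1 hvY).1).1]
              simpa using hx
            · have e2 : sig b z (D ∪ Y) v = Sum.inl (z v) := by
                refine if_neg fun hh => ?_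
                rcases mem_union.1 hh with hh | hh
                · exact hvD hh
                · exact hvY hh
              simp only [sb, e2, e3]
        rw [e0, h4]

end

end Pool.Agent.J6H11.Hlp
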