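import Mathlib

/-!
# Functions on the cube of bounded degree over a prime field
-/

set_option autoImplicit false
set_option linter.unusedSectionVars false

namespace Pool.Agent.J6H11.Hlp

open Finset

section
variable {p : ℕ} [Fact p.Prime] {V U : Type} [DecidableEq V] [DecidableEq U]

/-- the product of the variables in `A` -/
def mon (p : ℕ) (A : Finset V) : (V → Bool) → ZMod p := fun x => if ∀ i ∈ A, x i = true then 1 else 0

variable (V) in
/-- functions of degree at most `d` -/
def Deg (p d : ℕ) : Submodule (ZMod p) ((V → Bool) → ZMod p) :=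
  Submodule.span (ZMod p) {g | ∃ A : Finset V, A.card ≤ d ∧ g = mon p A}

theorem mon_mem {A : Finset V} {d : ℕ} (h : A.card ≤ d) : mon p A ∈ Deg V p d :=
  Submodule.subset_span ⟨A, h, rfl⟩

theorem Deg_mono {d d' : ℕ} (h : d ≤ d') : Deg V p d ≤ Deg V p d' :=
  Submodule.span_mono fun _ ⟨A, hA, e⟩ => ⟨A, hA.trans h, e⟩

theorem mon_empty : mon p (∅ : Finset V) = 1 := by
  funext x
  simp [mon]

theorem one_mem : (1 : (V → Bool) → ZMod p) ∈ Deg V p 0 := by
  rw [← mon_empty]
  exact mon_mem (by simp)

theorem mon_mul (A B : Finset V) : mon p A * mon p B = mon p (A ∪ B) := by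
  funext x
  simp only [mon, Pi.mul_apply]
  by_cases h1 : ∀ i ∈ A, x i = true
  · by_cases h2 : ∀ i ∈ B, x i = true
    · rw [if_pos h1, if_pos h2, if_pos, one_mul]
      intro i hi
      rcases mem_union.1 hi with hi | hi
      · exact h1 i hi
      · exact h2 i hi
    · rw [if_neg h2, mul_zero, if_neg]
      exact fun h => h2 fun i hi => h i (mem_union_right _ hi)
  · rw [if_neg h1, zero_mul, if_neg]
    exact fun h => h1 fun i hi => h i (mem_union_left _ hi)

theorem mul_mem {a b : ℕ} {f g : (V → Bool) → ZMod p} (hf : f ∈ Deg V p a) (hg : g ∈ Deg V p b) :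
    f * g ∈ Deg V p (a + b) := by
  have h1 := Submodule.mul_mem_mul hf hg
  rw [Deg, Deg, Submodule.span_mul_span] at h1
  refine (Submodule.span_le.2 ?_) h1
  rintro _ ⟨_, ⟨A, hA, rfl⟩, _, ⟨B, hB, rfl⟩, rfl⟩
  simp only
  rw [mon_mul]
  exact mon_mem ((card_union_le _ _).trans (by omega))

theorem pow_mem {a : ℕ} {f : (V → Bool) → ZMod p} (hf : f ∈ Deg V p a) (k : ℕ) :
    f ^ k ∈ Deg V p (k * a) := by
  induction k with
  | zero => simpa using one_mem
  | succ k ih =>
    rw [pow_succ, Nat.succ_mul]
    exact mul_mem ih hf

theorem prod_mem {ι : Type} (s : Finset ι) (a : ι → ℕ) (f : ι → (V → Bool) → ZMod p)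
    (hf : ∀ i ∈ s, f i ∈ Deg V p (a i)) : ∏ i ∈ s, f i ∈ Deg V p (∑ i ∈ s, a i) := by
  classical
  induction s using Finset.induction_on with
  | empty => simpa using one_mem
  | insert i s hi ih =>
    rw [prod_insert hi, sum_insert hi]
    exact mul_mem (hf i (mem_insert_self _ _)) (ih fun j hj => hf j (mem_insert_of_mem hj))

/-- substitution of constants and variables -/
def sb (σ : V → Bool ⊕ U) (x : U → Bool) (i : V) : Bool :=
  match σ i with
  | Sum.inl c => c
  | Sum.inr q => x q

theorem mon_sb (σ : V → Bool ⊕ U) (A : Finset V) :
    (fun x => mon p A (sb σ x)) ∈ Deg U p A.card := by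
  classical
  by_cases h : ∃ i ∈ A, σ i = Sum.inl false
  · obtain ⟨i, hi, h⟩ := h
    have : (fun x => mon p A (sb σ x)) = 0 := by
      funext x
      simp only [mon, Pi.zero_apply]
      rw [if_neg]
      intro hx
      have := hx i hi
      simp [sb, h] at this
    rw [this]
    exact Submodule.zero_mem _
  · push Not at h
    let B : Finset U := A.biUnion fun i => match σ i with
      | Sum.inl _ => ∅
      | Sum.inr q => {q}
    have hB : (fun x => mon p A (sb σ x)) = mon p B := by
      funext x
      simp only [mon]
      congr 1
      apply propext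
      constructor
      · intro hx q hq
        simp only [B, mem_biUnion] at hq
        obtain ⟨i, hi, hq⟩ := hq
        have := hx i hi
        cases hc : σ i with
        | inl c => simp [hc] at hq
        | inr r =>
          simp only [hc, mem_singleton] at hq
          simp only [sb, hc] at this
          rw [hq]
          exact this
      · intro hx i hi
        cases hc : σ i with
        | inl c =>
          simp only [sb, hc]
          cases c
          · exact absurd hc (h i hi)
          · rfl
        | inr r =>
          simp only [sb, hc]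
          apply hx
          simp only [B, mem_biUnion]
          exact ⟨i, hi, by simp [hc]⟩
    rw [hB]
    apply mon_mem
    refine card_biUnion_le.trans ?_
    calc ∑ i ∈ A, (match σ i with | Sum.inl _ => (∅ : Finset U) | Sum.inr q => {q}).card ≤
        ∑ i ∈ A, 1 := by
          refine sum_le_sum fun i _ => ?_
          cases σ i <;> simp
      _ = A.card := by simp

theorem sb_mem {σ : V → Bool ⊕ U} {d : ℕ} {g : (V → Bool) → ZMod p} (hg : g ∈ Deg V p d) :
    (fun x => g (sb σ x)) ∈ Deg U p d := by
  induction hg using Submodule.span_induction with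
  | mem g hg =>
    obtain ⟨A, hA, rfl⟩ := hg
    exact Deg_mono hA (mon_sb σ A)
  | zero => exact Submodule.zero_mem _
  | add f g _ _ h1 h2 => exact Submodule.add_mem _ h1 h2
  | smul a f _ h => exact Submodule.smul_mem _ a h

/-- the sign -/
def sg (p : ℕ) [Fintype V] (x : V → Bool) : ZMod p := ∏ i, if x i = true then -1 else 1

theorem alt_sum [Fintype V] {d : ℕ} (hd : d < Fintype.card V) {g : (V → Bool) → ZMod p}
    (hg : g ∈ Deg V p d) : ∑ x, sg p x * g x = 0 := by
  induction hg using Submodule.span_induction with
  | mem g hg =>
    obtain ⟨A, hA, rfl⟩ := hg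
    have h1 : ∀ x : V → Bool, sg p x * mon p A x =
        ∏ i, ((if x i = true then (-1 : ZMod p) else 1) * if i ∈ A → x i = true then 1 else 0) := by
      intro x
      rw [prod_mul_distrib]
      congr 1
      simp only [mon]
      by_cases h : ∀ i ∈ A, x i = true
      · rw [if_pos h, prod_eq_one]
        intro i _
        rw [if_pos (h i)]
      · rw [if_neg h]
        push Not at h
        obtain ⟨i, hi, hx⟩ := h
        rw [prod_eq_zero (mem_univ i)]
        rw [if_neg]
        exact fun h => hx (h hi)
    simp only [h1]
    have h2 := (prod_univ_sum (fun _ : V => (univ : Finset Bool))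
      (fun i b => (if b = true then (-1 : ZMod p) else 1) * if i ∈ A → b = true then 1 else 0))
    rw [Fintype.piFinset_univ] at h2
    rw [← h2]
    obtain ⟨i, hi⟩ : ∃ i, i ∉ A := by
      by_contra h
      push Not at h
      have := card_le_card (fun i _ => h i : univ ⊆ A)
      rw [card_univ] at this
      omega
    apply prod_eq_zero (mem_univ i)
    rw [Fintype.sum_bool]
    simp [hi]
  | zero => simp
  | add f g _ _ h1 h2 =>
    simp only [Pi.add_apply, mul_add, sum_add_distrib, h1, h2, add_zero]
  | smul a f _ h =>
    simp only [Pi.smul_apply, smul_eq_mul]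
    have : ∀ x, sg p x * (a * f x) = a * (sg p x * f x) := fun x => by ring
    simp only [this]
    rw [← mul_sum, h, mul_zero]

/-- a Chevalley–Warning theorem for the cube -/
theorem cw [Fintype V] {ι : Type} [Fintype ι] (g : ι → (V → Bool) → ZMod p) (d : ℕ)
    (hg : ∀ i, g i ∈ Deg V p d) (h0 : ∀ i, g i (fun _ => false) = 0)
    (hd : Fintype.card ι * ((p - 1) * d) < Fintype.card V) :
    ∃ x : V → Bool, (∃ v, x v = true) ∧ ∀ i, g i x = 0 := by
  by_contra hcon
  push Not at hcon
  have hp : 0 < p - 1 := by
    have := (Fact.out : p.Prime).two_le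
    omega
  have h1 : ∏ i, (1 - g i ^ (p - 1)) ∈ Deg V p (∑ _i : ι, (p - 1) * d) := by
    refine prod_mem univ (fun _ => (p - 1) * d) _ fun i _ => ?_
    exact Submodule.sub_mem _ (Deg_mono (Nat.zero_le _) one_mem) (pow_mem (hg i) _)
  have h2 := alt_sum (by simpa using hd) h1
  have h3 : ∀ x : V → Bool, x ≠ (fun _ => false) →
      sg p x * (∏ i, (1 - g i ^ (p - 1))) x = 0 := by
    intro x hx
    have : ∃ v, x v = true := by
      by_contra h
      push Not at h
      exact hx (funext fun v => by simpa using h v)
    obtain ⟨i, hi⟩ := hcon x this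
    rw [Finset.prod_apply, prod_eq_zero (mem_univ i), mul_zero]
    simp only [Pi.sub_apply, Pi.one_apply, Pi.pow_apply]
    rw [ZMod.pow_card_sub_one_eq_one hi, sub_self]
  rw [Fintype.sum_eq_single _ h3] at h2
  have h4 : (∏ i, (1 - g i ^ (p - 1))) (fun _ : V => false) = 1 := by
    rw [Finset.prod_apply]
    refine prod_eq_one fun i _ => ?_
    simp only [Pi.sub_apply, Pi.one_apply, Pi.pow_apply, h0]
    rw [zero_pow hp.ne', sub_zero]
  rw [h4] at h2
  simp [sg] at h2

/-- functions of degree at most `d` are determined by the values at the vectors of weight at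
most `d` -/
theorem low_weight [Fintype V] {d : ℕ} {g : (V → Bool) → ZMod p} (hg : g ∈ Deg V p d)
    (h : ∀ x : V → Bool, (univ.filter fun i => x i = true).card ≤ d → g x = 0) : ∀ x, g x = 0 := by
  suffices H : ∀ k, ∀ x : V → Bool, (univ.filter fun i => x i = true).card = k → g x = 0 from
    fun x => H _ x rfl
  intro k
  induction k using Nat.strong_induction_on with
  | _ k ih =>
    intro x hx
    rcases Nat.lt_or_ge d k with hdk | hdk
    · let B := univ.filter fun i => x i = true
      let σ : V → Bool ⊕ {i // i ∈ B} := fun i => if hi : i ∈ B then Sum.inr ⟨i, hi⟩ else Sum.inl false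
      have h1 := sb_mem (σ := σ) hg
      have hcard : Fintype.card {i // i ∈ B} = k := by
        rw [Fintype.card_coe]
        exact hx
      have h2 := alt_sum (by rw [hcard]; exact hdk) h1
      have h3 : ∀ y : {i // i ∈ B} → Bool, y ≠ (fun _ => true) → sg p y * g (sb σ y) = 0 := by
        intro y hy
        have hlt : (univ.filter fun i => sb σ y i = true).card < k := by
          rw [← hx]
          apply card_lt_card
          rw [ssubset_iff_of_subset]
          · have : ∃ v, y v = false := by
              by_contra hh
              push Not at hh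
              exact hy (funext fun v => by simpa using hh v)
            obtain ⟨v, hv⟩ := this
            refine ⟨v.1, v.2, ?_⟩
            simp only [mem_filter, mem_univ, true_and]
            have : σ v.1 = Sum.inr v := by
              simp only [σ]
              rw [dif_pos v.2]
            simp [sb, this, hv]
          · intro i hi
            simp only [mem_filter, mem_univ, true_and] at hi
            by_contra hiB
            have : σ i = Sum.inl false := by
              simp only [σ]
              rw [dif_neg]
              exact hiB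
            simp [sb, this] at hi
        rw [ih _ hlt _ rfl, mul_zero]
      rw [Fintype.sum_eq_single _ h3] at h2
      have h4 : sb σ (fun _ => true) = x := by
        funext i
        by_cases hi : i ∈ B
        · have : σ i = Sum.inr ⟨i, hi⟩ := by simp only [σ]; rw [dif_pos hi]
          simp only [sb, this]
          exact (mem_filter.1 hi).2.symm
        · have : σ i = Sum.inl false := by simp only [σ]; rw [dif_neg hi]
          simp only [sb, this]
          have hx' : ¬ x i = true := fun hxi => hi (mem_filter.2 ⟨mem_univ _, hxi⟩)
          simpa using hx'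
      rw [h4] at h2
      have h5 : sg p (fun _ : {i // i ∈ B} => true) ≠ 0 := by
        simp only [sg, if_true, prod_const]
        exact pow_ne_zero _ (neg_ne_zero.2 one_ne_zero)
      exact (mul_eq_zero.1 h2).resolve_left h5
    · exact h x (by omega)

end

end Pool.Agent.J6H11.Hlp
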