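import Pool.Agent.J6H11.Hlp.Param
import Pool.Agent.J6H27.MPH.Pl

/-!
# Devices with help: definitions and closure properties
-/

set_option autoImplicit false
set_option linter.unusedSectionVars false

namespace Pool.Agent.J6H11.Hlp

open Finset DomAC0 Filter Pool.Agent.J6H27.MPH Pool.Agent.J6H7.Chain Pool.Agent.H520R2
  Pool.Agent.H520R2.NM

/-- Help: `help x j`, `j < T`, is a number modulo `p`, the sum with arbitrary weights of values of
nodes (inputs or gates) of depth at most `a` of a circuit with at most `N ^ a` gates, which are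
negations, conjunctions and disjunctions of arbitrary fan-in. -/
def Help (a : ℕ) {N p T : ℕ} (help : (Fin N → Bool) → Fin T → ZMod p) : Prop :=
  ∃ (C : Circuit (Fin N)) (w : Fin T → Fin N ⊕ Fin C.size → ZMod p), C.size ≤ N ^ a ∧
    (∀ j v, w j v ≠ 0 → C.nodeDepth v ≤ a) ∧
    ∀ x j, help x j = ∑ v, w j v * if C.nodeVal x v = true then 1 else 0

theorem transferH (ε : ℝ) (hε : 0 < ε) (a : ℕ) : ∃ δ : ℝ, 0 < δ ∧ δ ≤ 1 / 8 ∧
    ∀ᶠ N : ℕ in atTop, ∀ (p : ℕ) [Fact p.Prime] (n T : ℕ) (hn : 0 < n)
      (help : (Fin N → Bool) → Fin T → ZMod p), (p : ℝ) ≤ (N : ℝ) ^ δ → (n : ℝ) ≤ (N : ℝ) ^ δ →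
      (T : ℝ) ≤ (N : ℝ) ^ (1 - ε) → Help a help →
      ∃ (σ : Fin N → Bool ⊕ Fin n) (v : Fin T → ZMod p), (∀ x, maj (bk hn) (sub σ x) = x) ∧
        ∀ x, help (sub σ x) = v := by
  obtain ⟨δ, h1, h2, h3⟩ := transfer ε hε a
  refine ⟨δ, h1, h2, ?_⟩
  filter_upwards [h3] with N h p _ n T hn help hp hnN hT ⟨C, w, hC, hw, hv⟩
  obtain ⟨σ, hσ1, hσ2⟩ := h p n T hn C w hp hnN hT hC hw
  refine ⟨σ, help (sub σ fun _ => false), hσ1, fun x => funext fun j => ?_⟩
  rw [hv, hv]
  exact hσ2 x (fun _ => false) j

/-! ### Composition with majorities -/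

section comp
variable {X ι κ : Type}

theorem MProg.base {B : Set (X → Bool)} {L0 : List (X → Bool)} (h0 : MProg B L0)
    {L : List (X → Bool)} (h : MProg (B ∪ {f | f ∈ L0}) L) : MProg B (L ++ L0) := by
  have key : ∀ {L : List (X → Bool)} {f : X → Bool}, (f ∈ B ∪ {f | f ∈ L0} ∨ f ∈ L) →
      (f ∈ B ∨ f ∈ L ++ L0) := by
    rintro L f ((hf | hf) | hf)
    · exact Or.inl hf
    · exact Or.inr (List.mem_append_right _ hf)
    · exact Or.inr (List.mem_append_left _ hf)
  induction h with
  | nil => simpa using h0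
  | @and L f g _ hf hg ih => exact MProg.and ih (key hf) (key hg)
  | @or L f g _ hf hg ih => exact MProg.or ih (key hf) (key hg)

theorem MComp.base {B : Set (X → Bool)} {L0 : List (X → Bool)} (h0 : MProg B L0) {s : ℕ}
    {f : X → Bool} (h : MComp (B ∪ {f | f ∈ L0}) s f) : MComp B (s + L0.length) f := by
  obtain ⟨L, hL, hs, hf⟩ := h
  refine ⟨L ++ L0, MProg.base h0 hL, by simp; omega, ?_⟩
  rcases hf with (hf | hf) | hf
  · exact Or.inl hf
  · exact Or.inr (List.mem_append_right _ hf)
  · exact Or.inr (List.mem_append_left _ hf)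

theorem MComp.smono {B : Set (X → Bool)} {s s' : ℕ} {f : X → Bool} (h : MComp B s f)
    (hs : s ≤ s') : MComp B s' f := by
  obtain ⟨L, hL, hl, hf⟩ := h
  exact ⟨L, hL, hl.trans hs, hf⟩

theorem MComp.precomp {L0 : List ((ι → Bool) → Bool)} (h0 : MProg (VB ι) L0)
    {τ : (ι → Bool) → κ → Bool} (hτ : ∀ i, Av (VB ι) L0 (fun x => τ x i)) {s : ℕ}
    {f : (κ → Bool) → Bool} (h : MComp (VB κ) s f) :
    MComp (VB ι) (s + L0.length) (fun x => f (τ x)) := by
  refine MComp.base h0 (MComp.comp τ ?_ h)
  rintro b (⟨c, rfl⟩ | ⟨i, rfl⟩)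
  · exact Or.inl (Or.inl ⟨c, rfl⟩)
  · rcases hτ i with h | h
    · exact Or.inl h
    · exact Or.inr h

theorem Level.smono {g s s' : ℕ} (hs : s ≤ s') {k : ℕ} :
    ∀ {b : Bool} {f : (ι → Bool) → Prop}, Level g s k b f → Level g s' k b f := by
  induction k with
  | zero =>
    rintro b f ⟨C, hC, h2⟩
    exact ⟨C, MComp.smono hC hs, h2⟩
  | succ k ih =>
    intro b f h
    cases b with
    | true =>
      obtain ⟨D, hD, h2⟩ := h
      exact ⟨D, fun u => ih (hD u), h2⟩
    | false =>
      obtain ⟨D, hD, h2⟩ := h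
      exact ⟨D, fun u => ih (hD u), h2⟩

theorem Level.precomp {L0 : List ((ι → Bool) → Bool)} (h0 : MProg (VB ι) L0)
    {τ : (ι → Bool) → κ → Bool} (hτ : ∀ i, Av (VB ι) L0 (fun x => τ x i)) {g s k : ℕ} :
    ∀ {b : Bool} {f : (κ → Bool) → Prop}, Level g s k b f →
      Level g (s + L0.length) k b (fun x => f (τ x)) := by
  induction k with
  | zero =>
    rintro b f ⟨C, hC, h2⟩
    exact ⟨_, MComp.precomp h0 hτ hC, fun x => h2 _⟩
  | succ k ih =>
    intro b f h
    cases b with
    | true =>
      obtain ⟨D, hD, h2⟩ := h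
      exact ⟨fun u x => D u (τ x), fun u => ih (hD u), fun x => h2 _⟩
    | false =>
      obtain ⟨D, hD, h2⟩ := h
      exact ⟨fun u x => D u (τ x), fun u => ih (hD u), fun x => h2 _⟩

end comp

theorem maj_prog {V : Type} [Fintype V] [DecidableEq V] {n : ℕ} (b : V → Fin n)
    (s : Finset (Fin n)) : ∃ L : List ((V → Bool) → Bool), MProg (VB V) L ∧
      L.length ≤ ∑ i ∈ s, 2 * (blk b i).card * (blk b i).card ∧
      ∀ i ∈ s, Av (VB V) L (fun x => maj b x i) := by
  induction s using Finset.induction_on with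
  | empty => exact ⟨[], MProg.nil, by simp, by simp⟩
  | insert i s hi ih =>
    obtain ⟨L, hL, hl, hav⟩ := ih
    have h1 := thr_prog hL ((blk b i).toList.map fun v => fun x : V → Bool => x v) (by
      intro g hg
      obtain ⟨v, -, rfl⟩ := List.mem_map.1 hg
      exact Or.inl (Or.inr ⟨v, rfl⟩)) (Or.inl ⟨true, rfl⟩) (Or.inl ⟨false, rfl⟩) (blk b i).card
    obtain ⟨L', hL', hl', hav'⟩ := h1
    refine ⟨L' ++ L, hL', ?_, ?_⟩
    · rw [sum_insert hi, List.length_append]
      rw [List.length_map, length_toList] at hl'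
      omega
    · intro j hj
      rcases mem_insert.1 hj with rfl | hj
      · have h2 := hav' (((blk b j).card + 1) / 2) (by
          rcases Nat.eq_zero_or_pos (blk b j).card with h | h
          · rw [h]
          · omega)
        have e : thr ((blk b j).toList.map fun v => fun x : V → Bool => x v)
            (((blk b j).card + 1) / 2) = fun x => maj b x j := by
          funext x
          unfold thr maj
          have e1 : cnt ((blk b j).toList.map fun v => fun x : V → Bool => x v) x =
              ((blk b j).filter fun v => x v = true).card := by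
            unfold cnt
            rw [List.countP_map, card_filter, ← Finset.sum_map_toList, List.countP_eq_length_filter]
            induction (blk b j).toList with
            | nil => simp
            | cons v l ih =>
              rw [List.filter_cons, List.map_cons, List.sum_cons, ← ih]
              by_cases hv : x v = true
              · simp [hv, Nat.add_comm]
              · simp [hv]
          rw [e1]
          congr 1
          apply propext
          omega
        rw [← e]
        exact h2
      · exact (hav j hj).mono L'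

theorem maj_prog' {N n : ℕ} (hn : 0 < n) : ∃ L : List ((Fin N → Bool) → Bool),
    MProg (VB (Fin N)) L ∧ L.length ≤ 2 * N * N ∧
      ∀ i, Av (VB (Fin N)) L (fun x => maj (bk hn) x i) := by
  obtain ⟨L, h1, h2, h3⟩ := maj_prog (bk (N := N) hn) univ
  refine ⟨L, h1, h2.trans ?_, fun i => h3 i (mem_univ i)⟩
  have hle : ∀ i, (blk (bk (N := N) hn) i).card ≤ N := fun i => by
    have := card_le_univ (blk (bk (N := N) hn) i)
    rwa [Fintype.card_fin] at this
  have hsum : ∑ i, (blk (bk (N := N) hn) i).card = N := by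
    have := card_eq_sum_card_fiberwise (f := bk (N := N) hn) (s := univ) (t := univ)
      (fun x _ => mem_univ _)
    rw [card_univ, Fintype.card_fin] at this
    exact this.symm
  calc ∑ i, 2 * (blk (bk (N := N) hn) i).card * (blk (bk (N := N) hn) i).card ≤
      ∑ i, 2 * N * (blk (bk (N := N) hn) i).card := by
        refine sum_le_sum fun i _ => ?_
        exact Nat.mul_le_mul_right _ (Nat.mul_le_mul_left 2 (hle i))
    _ = 2 * N * N := by rw [← mul_sum, hsum]

/-! ### Strategies -/

section strat
variable {D D' : Type} {ι κ : Type}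

/-- other devices -/
def smap (φ : D → D') : {l : List ℕ} → Strategy D l → Strategy D' l
  | _, Strategy.answer d => Strategy.answer (φ d)
  | _, Strategy.ask q next => Strategy.ask (fun j => φ (q j)) (fun r => smap φ (next r))

open Classical in
theorem smap_run {φ : D → D'} {acc : D → (ι → Bool) → Prop} {acc' : D' → (κ → Bool) → Prop}
    {τ : (κ → Bool) → ι → Bool} (h : ∀ d x, acc' (φ d) x ↔ acc d (τ x)) :
    ∀ {l : List ℕ} (S : Strategy D l) (x : κ → Bool),
      (smap φ S).run acc' x ↔ S.run acc (τ x)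
  | _, Strategy.answer d, x => h d x
  | _, Strategy.ask q next, x => by
    have e : (fun j => decide (acc' (φ (q j)) x)) = fun j => decide (acc (q j) (τ x)) := by
      funext j
      exact decide_eq_decide.2 (h _ _)
    show (smap φ (next fun j => decide (acc' (φ (q j)) x))).run acc' x ↔
      (next fun j => decide (acc (q j) (τ x))).run acc (τ x)
    rw [e]
    exact smap_run h _ x

theorem smap_all {φ : D → D'} {P : D → Prop} {P' : D' → Prop} (h : ∀ d, P d → P' (φ d)) :
    ∀ {l : List ℕ} (S : Strategy D l), S.All P → (smap φ S).All P'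
  | _, Strategy.answer d, hS => h d hS
  | _, Strategy.ask _ _, hS => ⟨fun j => h _ (hS.1 j), fun r => smap_all h _ (hS.2 r)⟩

end strat

end Pool.Agent.J6H11.Hlp
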