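import Pool.Agent.J6H11.Hlp.Restr

/-!
# Monotone projections on which sums modulo `p` of constant depth circuits are constant
-/

set_option autoImplicit false
set_option linter.unusedSectionVars false

namespace Pool.Agent.J6H11.Hlp

open Finset DomAC0 H592R3
open H568R2 hiding Good collapse switching

section
variable {p : ℕ} [Fact p.Prime] {V : Type} [DecidableEq V] [Fintype V]

/-- the majorities of the blocks -/
def maj {n : ℕ} (b : V → Fin n) (x : V → Bool) (i : Fin n) : Bool :=
  decide ((blk b i).card ≤ 2 * ((blk b i).filter fun v => x v = true).card)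

/-- a base point with almost balanced blocks -/
theorem exists_base {n m K : ℕ} (b : V → Fin n) (ρ : Restr V) {Q : ℝ}
    (hm : ∀ i, m ≤ (blk b i).card) (hK : (K : ℝ) ≤ Q * m / 4) (hQm : 4 ≤ Q * m)
    (hQ0 : 0 < Q)
    (hρ : ∀ i, |∑ v ∈ blk b i, xi (ρ v)| ≤ Q * (blk b i).card / 4 ∧
      |∑ v ∈ blk b i, et Q (ρ v)| ≤ Q * (blk b i).card / 4) :
    ∃ (z : V → Bool) (A : Finset V), (∀ v ∈ A, ρ v = none ∧ z v = false) ∧
      (∀ v c, ρ v = some c → z v = c) ∧ (∀ i, K ≤ (A.filter fun v => b v = i).card) ∧
      ∀ i, 2 * ((blk b i).filter fun v => z v = true).card < (blk b i).card ∧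
        (blk b i).card ≤ 2 * (((blk b i).filter fun v => z v = true).card + 1) := by
  have hblock : ∀ i, ∃ B ⊆ (blk b i).filter (fun v => ρ v = none),
      K + B.card ≤ ((blk b i).filter fun v => ρ v = none).card ∧
      2 * (((blk b i).filter fun v => ρ v = some true).card + B.card) < (blk b i).card ∧
      (blk b i).card ≤ 2 * (((blk b i).filter fun v => ρ v = some true).card + B.card + 1) := by
    intro i
    obtain ⟨h1, h2⟩ := hρ i
    have hmi : (m : ℝ) ≤ (blk b i).card := by exact_mod_cast hm i
    set B := blk b i with hB
    set O := (B.filter fun v => ρ v = some true).card with hO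
    set S := (B.filter fun v => ρ v = none).card with hS
    set Z := (B.filter fun v => ρ v = some false).card with hZ
    have hsum : (B.card : ℝ) = O + Z + S := by
      have : B.card = O + Z + S := by
        have e1 := card_filter_add_card_filter_not (s := B) (fun v => ρ v = none)
        have e2 := card_filter_add_card_filter_not (s := B.filter fun v => ¬ ρ v = none)
          (fun v => ρ v = some true)
        have e3 : (B.filter fun v => ¬ ρ v = none).filter (fun v => ρ v = some true) =
            B.filter fun v => ρ v = some true := by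
          ext v
          simp only [mem_filter]
          constructor
          · rintro ⟨⟨a1, -⟩, a2⟩
            exact ⟨a1, a2⟩
          · rintro ⟨a1, a2⟩
            exact ⟨⟨a1, by rw [a2]; simp⟩, a2⟩
        have e4 : (B.filter fun v => ¬ ρ v = none).filter (fun v => ¬ ρ v = some true) =
            B.filter fun v => ρ v = some false := by
          ext v
          simp only [mem_filter]
          constructor
          · rintro ⟨⟨a1, a3⟩, a2⟩
            refine ⟨a1, ?_⟩
            cases hh : ρ v with
            | none => exact absurd hh a3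
            | some c =>
              cases c
              · rfl
              · exact absurd hh a2
          · rintro ⟨a1, a2⟩
            exact ⟨⟨a1, by rw [a2]; simp⟩, by rw [a2]; simp⟩
        rw [e3, e4] at e2
        omega
      exact_mod_cast this
    have e1 : ∑ v ∈ B, xi (ρ v) = O - Z := by
      have : ∀ v, xi (ρ v) = (if ρ v = some true then (1 : ℝ) else 0) -
          if ρ v = some false then (1 : ℝ) else 0 := by
        intro v
        cases hh : ρ v with
        | none => simp [xi]
        | some c => cases c <;> simp [xi]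
      simp only [this]
      rw [sum_sub_distrib, sum_boole, sum_boole]
    have e2 : ∑ v ∈ B, et Q (ρ v) = S - Q * B.card := by
      have : ∀ v, et Q (ρ v) = (if ρ v = none then (1 : ℝ) else 0) - Q := by
        intro v
        cases hh : ρ v with
        | none => simp [et]
        | some c => simp [et]
      simp only [this]
      rw [sum_sub_distrib, sum_boole, sum_const, nsmul_eq_mul]
      ring
    rw [e1, abs_le] at h1
    rw [e2, abs_le] at h2
    have hQB : Q * m ≤ Q * B.card := mul_le_mul_of_nonneg_left hmi hQ0.le
    have c1 : 2 * (O : ℝ) + 2 ≤ B.card := by linarith [h1.1, h1.2, h2.1, h2.2]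
    have c2 : (B.card : ℝ) - 1 - 2 * O + 2 * K ≤ 2 * S := by linarith [h1.1, h1.2, h2.1, h2.2]
    have c1' : 2 * O + 2 ≤ B.card := by exact_mod_cast c1
    have c2' : B.card + 2 * K ≤ 2 * S + 1 + 2 * O := by
      have : (B.card : ℝ) + 2 * K ≤ 2 * S + 1 + 2 * O := by linarith
      exact_mod_cast this
    obtain ⟨B1, hB1, hB1c⟩ := exists_subset_card_eq (s := B.filter fun v => ρ v = none)
      (n := (B.card - 1) / 2 - O) (by rw [← hS]; omega)
    refine ⟨B1, hB1, ?_, ?_, ?_⟩ <;> rw [hB1c] <;> omega
  choose B hB1 hB2 hB3 hB4 using hblock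
  have hBb : ∀ i v, v ∈ B i → b v = i ∧ ρ v = none := by
    intro i v hv
    have := hB1 i hv
    simp only [blk, mem_filter, mem_univ, true_and] at this
    exact this
  refine ⟨fun v => decide (ρ v = some true ∨ v ∈ B (b v)),
    univ.filter fun v => ρ v = none ∧ v ∉ B (b v), ?_, ?_, ?_, ?_⟩
  · intro v hv
    simp only [mem_filter, mem_univ, true_and] at hv
    refine ⟨hv.1, ?_⟩
    rw [decide_eq_false_iff_not]
    rintro (h | h)
    · rw [hv.1] at h
      cases h
    · exact hv.2 h
  · intro v c hc
    have h1 : v ∉ B (b v) := by
      intro h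
      have := (hBb _ _ h).2
      rw [hc] at this
      cases this
    cases c
    · rw [decide_eq_false_iff_not]
      rintro (h | h)
      · rw [hc] at h
        cases h
      · exact h1 h
    · rw [decide_eq_true_eq]
      exact Or.inl hc
  · intro i
    have e : (univ.filter fun v => ρ v = none ∧ v ∉ B (b v)).filter (fun v => b v = i) =
        ((blk b i).filter fun v => ρ v = none) \ B i := by
      ext v
      simp only [blk, mem_filter, mem_univ, true_and, mem_sdiff]
      constructor
      · rintro ⟨⟨a1, a2⟩, rfl⟩
        exact ⟨⟨rfl, a1⟩, a2⟩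
      · rintro ⟨⟨rfl, a1⟩, a2⟩
        exact ⟨⟨a1, a2⟩, rfl⟩
    rw [e, card_sdiff_of_subset (hB1 i)]
    have := hB2 i
    omega
  · intro i
    have e : ((blk b i).filter fun v => decide (ρ v = some true ∨ v ∈ B (b v)) = true).card =
        ((blk b i).filter fun v => ρ v = some true).card + (B i).card := by
      rw [← card_union_of_disjoint]
      · congr 1
        ext v
        simp only [mem_filter, decide_eq_true_eq, mem_union]
        constructor
        · rintro ⟨a1, a2 | a2⟩
          · exact Or.inl ⟨a1, a2⟩
          · right
            have : b v = i := by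
              simp only [blk, mem_filter, mem_univ, true_and] at a1
              exact a1
            rwa [this] at a2
        · rintro (⟨a1, a2⟩ | a2)
          · exact ⟨a1, Or.inl a2⟩
          · have h1 := hBb i v a2
            refine ⟨by simp [blk, h1.1], Or.inr ?_⟩
            rw [h1.1]
            exact a2
      · rw [disjoint_left]
        intro v hv hv2
        have h1 := (hBb i v hv2).2
        rw [(mem_filter.1 hv).2] at h1
        cases h1
    rw [e]
    exact ⟨hB3 i, hB4 i⟩

/-- **Monotone projections.** -/
theorem embed {n T c h m K : ℕ} (b : V → Fin n) (C : Circuit V)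
    (w : Fin T → V ⊕ Fin C.size → ZMod p) (hw : ∀ j v, w j v ≠ 0 → C.nodeDepth v ≤ c)
    {q : ℝ} (hq0 : 0 < q) (hq : q ≤ 1 / 3) (hh : 1 ≤ h) (hm0 : 0 < m)
    (hm : ∀ i, m ≤ (blk b i).card)
    (hsum : c * ((C.size * (Fintype.card V + C.size + 1) : ℕ) : ℝ) * (12 * h * q) ^ (h + 1) +
      n * (32 / ((q ^ c) ^ 2 * m)) < 1)
    (hK : (K : ℝ) ≤ q ^ c * m / 4) (hQm : 4 ≤ q ^ c * m)
    (hKT : T * (n + 1) ^ h * ((p - 1) * h) < K) :
    ∃ σ : V → Bool ⊕ Fin n, (∀ x, maj b (sb σ x) = x) ∧
      ∀ x x' j, msum C (w j) (sb σ x) = msum C (w j) (sb σ x') := by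
  classical
  obtain ⟨ρ, hG, hρ⟩ := exists_good C b hq0 hq hh hm0 hm hsum
  obtain ⟨z, A, hA, hz, hAK, hzm⟩ := exists_base b ρ hm hK hQm (pow_pos hq0 c) hρ
  obtain ⟨D, hD1, hD2, hD3⟩ := cube (p := p) b z A (fun v hv => (hA v hv).2)
    (fun j x => msum C (w j) (ov ρ x)) (fun j => msum_mem hh hG (hw j))
    (fun i => hKT.trans_le (hAK i))
  have hov : ∀ x, ov ρ (sb (sig b z D) x) = sb (sig b z D) x := by
    intro x
    funext v
    unfold ov
    cases hv : ρ v with
    | none => rfl
    | some c =>
      have hvD : v ∉ D := by
        intro h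
        have := (hA v (hD1 h)).1
        rw [hv] at this
        cases this
      have e1 : sig b z D v = Sum.inl (z v) := if_neg hvD
      simp only [sb, e1, Option.getD_some]
      exact (hz v c hv).symm
  refine ⟨sig b z D, fun x => ?_, fun x x' j => ?_⟩
  · funext i
    unfold maj
    obtain ⟨h1, h2⟩ := hzm i
    cases hx : x i with
    | false =>
      rw [decide_eq_false_iff_not, not_le]
      refine lt_of_le_of_lt ?_ h1
      refine Nat.mul_le_mul_left 2 (card_le_card ?_)
      intro v hv
      rw [mem_filter] at hv ⊢
      refine ⟨hv.1, ?_⟩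
      have hb : b v = i := by
        have := hv.1
        simp only [blk, mem_filter, mem_univ, true_and] at this
        exact this
      by_cases hvD : v ∈ D
      · have e1 : sig b z D v = Sum.inr (b v) := if_pos hvD
        have e2 := hv.2
        simp only [sb, e1, hb, hx] at e2
        cases e2
      · have e1 : sig b z D v = Sum.inl (z v) := if_neg hvD
        have e2 := hv.2
        simpa only [sb, e1] using e2
    | true =>
      rw [decide_eq_true_eq]
      refine h2.trans (Nat.mul_le_mul_left 2 ?_)
      obtain ⟨u, huD, hub⟩ := hD2 i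
      have hu : u ∉ (blk b i).filter fun v => z v = true := by
        intro h
        have h3 := (mem_filter.1 h).2
        rw [(hA u (hD1 huD)).2] at h3
        cases h3
      rw [← card_insert_of_notMem hu]
      refine card_le_card ?_
      intro v hv
      rw [mem_filter]
      rcases mem_insert.1 hv with rfl | hv
      · have e1 : sig b z D v = Sum.inr (b v) := if_pos huD
        refine ⟨by simp [blk, hub], ?_⟩
        simp only [sb, e1, hub, hx]
      · rw [mem_filter] at hv
        refine ⟨hv.1, ?_⟩
        have hvD : v ∉ D := by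
          intro h
          have h3 := (hA v (hD1 h)).2
          rw [hv.2] at h3
          cases h3
        have e1 : sig b z D v = Sum.inl (z v) := if_neg hvD
        simp only [sb, e1]
        exact hv.2
  · have h1 := hD3 x j
    have h2 := hD3 x' j
    simp only [hov] at h1 h2
    rw [h1, h2]

end

end Pool.Agent.J6H11.Hlp
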