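import Pool.Agent.J6H11.Hlp.Dev

/-!
# The hierarchy with help
-/

set_option autoImplicit false
set_option linter.unusedSectionVars false

namespace Pool.Agent.J6H11.Hlp

open Finset DomAC0 Filter Pool.Agent.J6H27.MPH Pool.Agent.J6H7.Chain Pool.Agent.H520R2
  Pool.Agent.H520R2.NM

/-- the number of blocks -/
noncomputable def nn (δ : ℝ) (N : ℕ) : ℕ := ⌊(N : ℝ) ^ δ⌋₊

theorem nn_le (δ : ℝ) (N : ℕ) : (nn δ N : ℝ) ≤ (N : ℝ) ^ δ := Nat.floor_le (by positivity)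

theorem nn_ge {δ : ℝ} (hδ : 0 < δ) : ∀ᶠ N : ℕ in atTop, (N : ℝ) ^ (δ / 2) ≤ nn δ N := by
  filter_upwards [ev 2 (by positivity : 0 < δ / 2) one_pos, eventually_ge_atTop 1] with N h1 hN
  have hN1 : (1 : ℝ) ≤ N := by exact_mod_cast hN
  have hN0 : (0 : ℝ) < N := by linarith
  have e : (N : ℝ) ^ δ = (N : ℝ) ^ (δ / 2) * (N : ℝ) ^ (δ / 2) := by
    rw [← Real.rpow_add hN0]
    congr 1
    ring
  have h2 : 2 ≤ (N : ℝ) ^ (δ / 2) := by
    have h3 : 2 * (N : ℝ) ^ (-(δ / 2)) * (N : ℝ) ^ (δ / 2) ≤ 1 * (N : ℝ) ^ (δ / 2) :=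
      mul_le_mul_of_nonneg_right h1 (by positivity)
    rw [mul_assoc, ← Real.rpow_add hN0] at h3
    simpa using h3
  have h3 := Nat.lt_floor_add_one ((N : ℝ) ^ δ)
  have h4 : (N : ℝ) ^ (δ / 2) ≤ (N : ℝ) ^ δ - 1 := by
    rw [e]
    nlinarith
  unfold nn
  linarith

theorem nn_tendsto {δ : ℝ} (hδ : 0 < δ) : Tendsto (nn δ) atTop atTop :=
  tendsto_nat_floor_atTop.comp
    ((tendsto_rpow_atTop hδ).comp tendsto_natCast_atTop_atTop)

theorem cube_le (k : ℕ) : k ^ 3 ≤ 4 ^ k := by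
  rcases Nat.lt_or_ge k 2 with h | h
  · interval_cases k <;> norm_num
  · induction k, h using Nat.le_induction with
    | base => norm_num
    | succ k hk ih =>
      calc (k + 1) ^ 3 ≤ 4 * k ^ 3 := by nlinarith [mul_le_mul hk hk (by norm_num) (by omega)]
        _ ≤ 4 * 4 ^ k := Nat.mul_le_mul_left 4 ih
        _ = 4 ^ (k + 1) := by ring

theorem log_cube_le {N : ℕ} (hN : N ≠ 0) : Nat.log 2 N ^ 3 ≤ N ^ 2 := by
  refine (cube_le _).trans ?_
  have h1 := Nat.pow_log_le_self 2 hN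
  calc 4 ^ Nat.log 2 N = (2 ^ Nat.log 2 N) ^ 2 := by rw [← pow_mul, mul_comm, pow_mul]; norm_num
    _ ≤ N ^ 2 := Nat.pow_le_pow_left h1 2

/-- the family of functions -/
def famM (f : ∀ n : ℕ, (Fin n → Bool) → Prop) (s : ℕ → ℕ) (N : ℕ) (x : Fin N → Bool) : Prop :=
  ∃ hn : 0 < s N, f (s N) (maj (bk hn) x)

theorem hierarchy_help (m : ℕ) (ε : ℝ) (hε : 0 < ε) (a : ℕ) :
    ∃ (δ : ℝ) (f : ∀ N : ℕ, (Fin N → Bool) → Prop), 0 < δ ∧
      (∀ᶠ N : ℕ in atTop, Level (Nat.log 2 N ^ 3) (N ^ 3) (m + 1) true (f N)) ∧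
      ∀ c : ℕ, ∀ᶠ N : ℕ in atTop, ∀ (p : ℕ) [Fact p.Prime] (T : ℕ)
        (help : (Fin N → Bool) → Fin T → ZMod p) (g : ℕ) (l : (Fin T → ZMod p) → List ℕ)
        (S : ∀ v, Strategy
          {d : (Fin N → Bool) → Prop // Level g (N ^ c) m true d ∨ Level g (N ^ c) m false d} (l v)),
        (p : ℝ) ≤ (N : ℝ) ^ δ → (T : ℝ) ≤ (N : ℝ) ^ (1 - ε) → Help a help →
        (g : ℝ) ≤ (N : ℝ) ^ δ →
        (∀ v, ((((l v).map (· + 1)).prod * ((l v).sum + 1) : ℕ) : ℝ) ≤ (N : ℝ) ^ δ) →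
        ¬ ∀ x, (S (help x)).run (fun d x => d.1 x) x ↔ f N x := by
  obtain ⟨δ0, f, hδ0, hup, hlow⟩ := hierarchy m (1 / 2) (by norm_num)
  obtain ⟨δ1, hδ1, hδ18, htr⟩ := transferH ε hε a
  obtain ⟨δ, hδ⟩ : ∃ δ : ℝ, δ = min δ1 (δ1 / 2 * min δ0 (1 / 2)) := ⟨_, rfl⟩
  have hδpos : 0 < δ := by
    rw [hδ]
    exact lt_min hδ1 (mul_pos (by positivity) (lt_min hδ0 (by norm_num)))
  refine ⟨δ, famM f (nn δ1), hδpos, ?_, ?_⟩
  · filter_upwards [(nn_tendsto hδ1).eventually hup, (nn_tendsto hδ1).eventually_gt_atTop 0,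
      eventually_ge_atTop 3] with N h1 hn hN
    have hN1 : (1 : ℝ) ≤ N := by exact_mod_cast (by omega : 1 ≤ N)
    have hnN : nn δ1 N ≤ N := by
      have h2 : (N : ℝ) ^ δ1 ≤ (N : ℝ) ^ (1 : ℝ) :=
        Real.rpow_le_rpow_of_exponent_le hN1 (by linarith)
      rw [Real.rpow_one] at h2
      exact_mod_cast (nn_le δ1 N).trans h2
    obtain ⟨L, hL1, hL2, hL3⟩ := maj_prog' (N := N) hn
    have hlog : Nat.log 2 (nn δ1 N) ^ 3 ≤ Nat.log 2 N ^ 3 :=
      Nat.pow_le_pow_left (Nat.log_mono_right hnN) 3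
    have h3 := (Level.precomp hL1 hL3 h1).gmono hlog
    have h4 : Nat.log 2 (nn δ1 N) ^ 3 + L.length ≤ N ^ 3 := by
      have h5 := log_cube_le (by omega : N ≠ 0)
      have h6 : 3 * N ^ 2 ≤ N ^ 3 := by
        rw [pow_succ N 2, mul_comm]
        exact Nat.mul_le_mul_left _ hN
      nlinarith
    refine (Level.smono h4 h3).congr fun x => ?_
    constructor
    · intro h
      exact ⟨hn, h⟩
    · rintro ⟨_, h⟩
      exact h
  · intro c
    obtain ⟨c', hc'⟩ := exists_nat_ge (2 * c / δ1)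
    filter_upwards [(nn_tendsto hδ1).eventually (hlow c'), (nn_tendsto hδ1).eventually_gt_atTop 0,
      nn_ge hδ1, htr, eventually_ge_atTop 1] with N h1 hn hge htr hN
    intro p _ T help g l S hp hT hH hg hl hS
    have hN1 : (1 : ℝ) ≤ N := by exact_mod_cast hN
    have hN0 : (0 : ℝ) < N := by linarith
    have hδ' : (N : ℝ) ^ δ ≤ (N : ℝ) ^ δ1 :=
      Real.rpow_le_rpow_of_exponent_le hN1 (by rw [hδ]; exact min_le_left _ _)
    obtain ⟨σ, v, hσ, hv⟩ := htr p (nn δ1 N) T hn help (hp.trans hδ') (nn_le δ1 N) hT hH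
    have hpow : ∀ e : ℝ, 0 ≤ e → (N : ℝ) ^ (δ1 / 2 * e) ≤ (nn δ1 N : ℝ) ^ e := by
      intro e he
      rw [Real.rpow_mul hN0.le]
      exact Real.rpow_le_rpow (by positivity) hge he
    have hsize : N ^ c ≤ nn δ1 N ^ c' := by
      have h2 : (N : ℝ) ^ c ≤ (nn δ1 N : ℝ) ^ c' := by
        rw [← Real.rpow_natCast, ← Real.rpow_natCast]
        refine le_trans ?_ (hpow c' (by positivity))
        apply Real.rpow_le_rpow_of_exponent_le hN1
        rw [div_le_iff₀ hδ1] at hc'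
        linarith
      exact_mod_cast h2
    have hmin1 : (N : ℝ) ^ δ ≤ (nn δ1 N : ℝ) ^ δ0 := by
      refine le_trans ?_ (hpow δ0 hδ0.le)
      apply Real.rpow_le_rpow_of_exponent_le hN1
      rw [hδ]
      refine (min_le_right _ _).trans ?_
      exact mul_le_mul_of_nonneg_left (min_le_left _ _) (by positivity)
    have hmin2 : (N : ℝ) ^ δ ≤ (nn δ1 N : ℝ) ^ (1 - 1 / 2 : ℝ) := by
      refine le_trans ?_ (hpow _ (by norm_num))
      apply Real.rpow_le_rpow_of_exponent_le hN1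
      rw [hδ]
      refine (min_le_right _ _).trans ?_
      refine mul_le_mul_of_nonneg_left ((min_le_right _ _).trans (by norm_num)) (by positivity)
    let φ : {d : (Fin N → Bool) → Prop // Level g (N ^ c) m true d ∨ Level g (N ^ c) m false d} →
        {d : (Fin (nn δ1 N) → Bool) → Prop // Level g (nn δ1 N ^ c') m true d ∨
          Level g (nn δ1 N ^ c') m false d} := fun d =>
      ⟨fun x => d.1 (sub σ x), d.2.imp (fun h => Level.smono hsize (h.subst σ))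
        (fun h => Level.smono hsize (h.subst σ))⟩
    refine h1 g (l v) (smap φ (S v)) (hg.trans hmin1) ((hl v).trans hmin2) fun x => ?_
    have h2 := smap_run (φ := φ) (acc := fun d x => d.1 x) (acc' := fun d x => d.1 x)
      (τ := sub σ) (fun d x => Iff.rfl) (S v) x
    refine h2.trans ?_
    have h3 := hS (sub σ x)
    rw [hv] at h3
    refine h3.trans ?_
    constructor
    · rintro ⟨_, h⟩
      rwa [hσ] at h
    · intro h
      refine ⟨hn, ?_⟩
      rwa [hσ]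

end Pool.Agent.J6H11.Hlp
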