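import Pool.Agent.J6H11.Hlp.Dev

/-!
# Networks, circuits and formulas: substitution and composition
-/

set_option autoImplicit false
set_option linter.unusedSectionVars false

namespace Pool.Agent.J6H11.Hlp

open Finset Filter Pool.Agent.J6H27.MPH Pool.Agent.J6H7.Chain

/-! ### Networks -/

section net
variable {V ι κ : Type}

/-- substitution in a network -/
def netSub (σ : ι → Bool ⊕ κ) (M : Net V ι) : Net V κ where
  s := M.s
  t := M.t
  free := M.free ++ M.wires.filterMap fun e =>
    match σ e.2.2 with
    | Sum.inl true => some (e.1, e.2.1)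
    | _ => none
  wires := M.wires.filterMap fun e =>
    match σ e.2.2 with
    | Sum.inr j => some (e.1, e.2.1, j)
    | _ => none

theorem netSub_size (σ : ι → Bool ⊕ κ) (M : Net V ι) : (netSub σ M).size ≤ M.size :=
  List.length_filterMap_le _ _

theorem netSub_step (σ : ι → Bool ⊕ κ) (M : Net V ι) (x : κ → Bool) (a b : V) :
    (netSub σ M).Step x a b ↔ M.Step (sub σ x) a b := by
  unfold Net.Step netSub
  simp only [List.mem_append, List.mem_filterMap]
  constructor
  · rintro ((h | ⟨e, he, h⟩) | ⟨j, ⟨e, he, h⟩, hj⟩)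
    · exact Or.inl h
    · right
      cases hσ : σ e.2.2 with
      | inl c =>
        cases c
        · simp [hσ] at h
        · simp only [hσ, Option.some.injEq, Prod.mk.injEq] at h
          refine ⟨e.2.2, ?_, by simp [sub, hσ]⟩
          rw [← h.1, ← h.2]
          exact he
      | inr j => simp [hσ] at h
    · right
      cases hσ : σ e.2.2 with
      | inl c => simp [hσ] at h
      | inr j' =>
        simp only [hσ, Option.some.injEq, Prod.mk.injEq] at h
        refine ⟨e.2.2, ?_, ?_⟩
        · rw [← h.1, ← h.2.1]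
          exact he
        · simp only [sub, hσ, h.2.2]
          exact hj
  · rintro (h | ⟨i, hi, hx⟩)
    · exact Or.inl (Or.inl h)
    · cases hσ : σ i with
      | inl c =>
        simp only [sub, hσ] at hx
        subst hx
        exact Or.inl (Or.inr ⟨(a, b, i), hi, by simp [hσ]⟩)
      | inr j =>
        simp only [sub, hσ] at hx
        exact Or.inr ⟨j, ⟨(a, b, i), hi, by simp [hσ]⟩, hx⟩

theorem netSub_directed (σ : ι → Bool ⊕ κ) (M : Net V ι) (x : κ → Bool) :
    (netSub σ M).Directed x ↔ M.Directed (sub σ x) := by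
  unfold Net.Directed
  have e : (netSub σ M).Step x = M.Step (sub σ x) := by
    funext a b
    exact propext (netSub_step σ M x a b)
  rw [e]
  exact Iff.rfl

end net

/-! ### Circuits -/

section circ
open Pool.Agent.H520R2.NM
variable {ι κ : Type}

/-- substitution for a wire -/
def wireSub (σ : ι → Bool ⊕ κ) {n : ℕ} : Wire ι n → Wire κ n
  | .input i => match σ i with
    | Sum.inl c => .const c
    | Sum.inr j => .input j
  | .const b => .const b
  | .gate j => .gate j

theorem wireSub_eval (σ : ι → Bool ⊕ κ) {n : ℕ} (x : κ → Bool) (v : Fin n → Bool) :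
    ∀ a : Wire ι n, (wireSub σ a).eval x v = a.eval (sub σ x) v
  | .input i => by
    unfold wireSub
    cases hσ : σ i with
    | inl c => simp [Wire.eval, sub, hσ]
    | inr j => simp [Wire.eval, sub, hσ]
  | .const _ => rfl
  | .gate _ => rfl

/-- substitution in a circuit -/
def circSub (σ : ι → Bool ⊕ κ) : {n : ℕ} → Circuit ι n → Circuit κ n
  | _, .empty => .empty
  | _, .and C a b => .and (circSub σ C) (wireSub σ a) (wireSub σ b)
  | _, .or C a b => .or (circSub σ C) (wireSub σ a) (wireSub σ b)
  | _, .any C w u G a => .any (circSub σ C) w u G (fun j => wireSub σ (a j))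

theorem circSub_vals (σ : ι → Bool ⊕ κ) (x : κ → Bool) : ∀ {n : ℕ} (C : Circuit ι n),
    (circSub σ C).vals x = C.vals (sub σ x)
  | _, .empty => rfl
  | _, .and C a b => by
    simp only [circSub, Circuit.vals, circSub_vals σ x C, wireSub_eval]
  | _, .or C a b => by
    simp only [circSub, Circuit.vals, circSub_vals σ x C, wireSub_eval]
  | _, .any C w u G a => by
    simp only [circSub, Circuit.vals, circSub_vals σ x C, wireSub_eval]

theorem circSub_size (σ : ι → Bool ⊕ κ) : ∀ {n : ℕ} (C : Circuit ι n),
    (circSub σ C).size = C.size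
  | _, .empty => rfl
  | _, .and C _ _ => by simp only [circSub, Circuit.size, circSub_size σ C]
  | _, .or C _ _ => by simp only [circSub, Circuit.size, circSub_size σ C]
  | _, .any C _ _ _ _ => by simp only [circSub, Circuit.size, circSub_size σ C]

theorem circSub_fanins (σ : ι → Bool ⊕ κ) : ∀ {n : ℕ} (C : Circuit ι n),
    (circSub σ C).fanins = C.fanins
  | _, .empty => rfl
  | _, .and C _ _ => by simp only [circSub, Circuit.fanins, circSub_fanins σ C]
  | _, .or C _ _ => by simp only [circSub, Circuit.fanins, circSub_fanins σ C]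
  | _, .any C _ _ _ _ => by simp only [circSub, Circuit.fanins, circSub_fanins σ C]

end circ

/-! ### Formulas -/

section form
variable {ι κ : Type}

theorem Shallow.precomp {e : ℕ} {τ : (ι → Bool) → κ → Bool}
    (hτ : ∀ i, Shallow e (fun x => τ x i = true)) : ∀ {d : ℕ} {f : (κ → Bool) → Prop},
    Shallow d f → Shallow (d + e) (fun x => f (τ x)) := by
  intro d
  induction d with
  | zero =>
    rintro f (⟨c, hc⟩ | ⟨i, hi⟩)
    · have h : Shallow 0 (fun x : ι → Bool => f (τ x)) := Or.inl ⟨c, fun x => hc _⟩
      exact h.lift (Nat.zero_le _)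
    · rw [Nat.zero_add]
      exact (hτ i).congr fun x => (hi _).symm
  | succ d ih =>
    rintro f ⟨a, b, ha, hb, h⟩
    have e1 : d + 1 + e = d + e + 1 := by omega
    rw [e1]
    exact ⟨_, _, ih ha, ih hb, h.imp (fun h x => h _) (fun h x => h _)⟩

theorem shallow_thr [DecidableEq ι] : ∀ (k : ℕ) (B : Finset ι) (θ : ℕ), B.card ≤ 2 ^ k →
    Shallow ((k + 1) ^ 2) (fun x : ι → Bool => θ ≤ (B.filter fun v => x v = true).card) := by
  intro k
  induction k with
  | zero =>
    intro B θ hB
    refine Shallow.lift (d := 0) ?_ (Nat.zero_le _)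
    rcases Nat.lt_or_ge 0 B.card with h | h
    · obtain ⟨v, rfl⟩ := card_eq_one.1 (by omega : B.card = 1)
      rcases Nat.eq_zero_or_pos θ with rfl | hθ
      · exact Or.inl ⟨True, fun x => by simp⟩
      · rcases Nat.lt_or_ge 1 θ with h1 | h1
        · refine Or.inl ⟨False, fun x => ?_⟩
          have := card_filter_le ({v} : Finset ι) (fun v => x v = true)
          rw [card_singleton] at this
          simp only [iff_false]
          omega
        · have : θ = 1 := by omega
          subst this
          refine Or.inr ⟨v, fun x => ?_⟩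
          show 1 ≤ (({v} : Finset ι).filter fun v => x v = true).card ↔ x v = true
          rw [filter_singleton]
          by_cases hx : x v = true
          · simp [hx]
          · simp [hx]
    · have : B = ∅ := card_eq_zero.1 (by omega)
      subst this
      exact Or.inl ⟨θ ≤ 0, fun x => by simp⟩
  | succ k ih =>
    intro B θ hB
    obtain ⟨B1, hB1, hc1⟩ := exists_subset_card_eq (s := B) (n := min B.card (2 ^ k))
      (min_le_left _ _)
    have hc1' : B1.card ≤ 2 ^ k := by rw [hc1]; exact min_le_right _ _
    have hc2 : (B \ B1).card ≤ 2 ^ k := by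
      rw [card_sdiff_of_subset hB1, hc1]
      rw [pow_succ] at hB
      omega
    let e : (Fin (k + 1) → Bool) ≃ Fin (2 ^ (k + 1)) :=
      Fintype.equivFinOfCardEq (by simp)
    have h1 : ∀ u : Fin (k + 1) → Bool, Shallow ((k + 1) ^ 2 + 1) (fun x : ι → Bool =>
        ((e u : ℕ) ≤ (B1.filter fun v => x v = true).card ∧
          θ - (e u : ℕ) ≤ ((B \ B1).filter fun v => x v = true).card)) := fun u =>
      ⟨_, _, ih B1 _ hc1', ih (B \ B1) _ hc2, Or.inl fun x => Iff.rfl⟩
    have h2 := Shallow.exi h1
    have hadd : ∀ x : ι → Bool, (B.filter fun v => x v = true).card =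
        (B1.filter fun v => x v = true).card + ((B \ B1).filter fun v => x v = true).card := by
      intro x
      rw [← card_union_of_disjoint]
      · rw [← filter_union, union_sdiff_of_subset hB1]
      · exact disjoint_filter_filter disjoint_sdiff
    refine (h2.congr fun x => ?_).lift (by nlinarith)
    rw [hadd]
    constructor
    · rintro ⟨u, hu1, hu2⟩
      omega
    · intro h
      have hlt : (B1.filter fun v => x v = true).card < 2 ^ (k + 1) := by
        refine lt_of_le_of_lt (card_filter_le _ _) ?_
        rw [pow_succ]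
        have := Nat.pos_of_ne_zero (pow_ne_zero k (two_ne_zero : (2 : ℕ) ≠ 0))
        omega
      refine ⟨e.symm ⟨_, hlt⟩, ?_, ?_⟩
      · rw [Equiv.apply_symm_apply]
      · rw [Equiv.apply_symm_apply]
        simp only
        omega

theorem shallow_maj {N n : ℕ} (hn : 0 < n) (i : Fin n) :
    Shallow ((Nat.log 2 N + 2) ^ 2) (fun x : Fin N → Bool => maj (bk hn) x i = true) := by
  have hB : (blk (bk (N := N) hn) i).card ≤ 2 ^ (Nat.log 2 N + 1) := by
    have h1 := card_le_univ (blk (bk (N := N) hn) i)
    rw [Fintype.card_fin] at h1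
    exact h1.trans (Nat.lt_pow_succ_log_self (by norm_num) N).le
  refine (shallow_thr _ (blk (bk (N := N) hn) i) (((blk (bk (N := N) hn) i).card + 1) / 2)
    hB).congr fun x => ?_
  unfold maj
  rw [decide_eq_true_eq]
  omega

/-- The graph on the vertices `0, ..., n - 1` whose edges are the pairs `e` with `x e = true` has a
clique with `k` vertices. -/
def HasClique (n k : ℕ) (x : Sym2 (Fin n) → Bool) : Prop :=
  ¬ (SimpleGraph.fromEdgeSet {e | x e = true}).CliqueFree k

theorem hasClique_iff (n k : ℕ) (x : Sym2 (Fin n) → Bool) : HasClique n k x ↔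
    ∃ φ : Fin k → Fin n, ∀ i j, i ≠ j → φ i ≠ φ j ∧ x s(φ i, φ j) = true := by
  unfold HasClique
  rw [SimpleGraph.not_cliqueFree_iff_top_isContained]
  constructor
  · rintro ⟨f⟩
    refine ⟨f, fun i j hij => ?_⟩
    have h1 : (⊤ : SimpleGraph (Fin k)).Adj i j := hij
    have h2 := f.toHom.map_adj h1
    rw [SimpleGraph.fromEdgeSet_adj] at h2
    exact ⟨h2.2, h2.1⟩
  · rintro ⟨φ, hφ⟩
    have hinj : Function.Injective φ := by
      intro i j hij
      by_contra h
      exact (hφ i j h).1 hij
    refine ⟨⟨⟨φ, ?_⟩, hinj⟩⟩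
    intro i j h
    rw [SimpleGraph.fromEdgeSet_adj]
    exact ⟨(hφ i j h).2, (hφ i j h).1⟩

theorem shallow_clique (n k : ℕ) (hn : 0 < n) (hk : 0 < k) :
    Shallow (2 * (Nat.log 2 k + 1) + k * (Nat.log 2 n + 1)) (HasClique n k) := by
  have hc1 : Fintype.card (Fin k → Fin n) ≤ Fintype.card (Fin (k * (Nat.log 2 n + 1)) → Bool) := by
    simp only [Fintype.card_fun, Fintype.card_fin, Fintype.card_bool]
    rw [mul_comm, pow_mul]
    exact Nat.pow_le_pow_left (Nat.lt_pow_succ_log_self (by norm_num) n).le k
  have hc2 : Fintype.card (Fin k × Fin k) ≤ Fintype.card (Fin (2 * (Nat.log 2 k + 1)) → Bool) := by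
    simp only [Fintype.card_fun, Fintype.card_fin, Fintype.card_bool, Fintype.card_prod]
    rw [mul_comm 2, pow_mul, sq]
    have := (Nat.lt_pow_succ_log_self (by norm_num : 1 < 2) k).le
    exact Nat.mul_le_mul this this
  obtain ⟨e1⟩ := Function.Embedding.nonempty_of_card_le hc1
  obtain ⟨e2⟩ := Function.Embedding.nonempty_of_card_le hc2
  have : Nonempty (Fin k → Fin n) := ⟨fun _ => ⟨0, hn⟩⟩
  have : Nonempty (Fin k × Fin k) := ⟨(⟨0, hk⟩, ⟨0, hk⟩)⟩
  have h1 : ∀ (u : Fin (k * (Nat.log 2 n + 1)) → Bool) (w : Fin (2 * (Nat.log 2 k + 1)) → Bool),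
      Shallow 0 (fun x : Sym2 (Fin n) → Bool =>
        ((Function.invFun e2 w).1 ≠ (Function.invFun e2 w).2 →
          Function.invFun e1 u (Function.invFun e2 w).1 ≠
            Function.invFun e1 u (Function.invFun e2 w).2 ∧
          x s(Function.invFun e1 u (Function.invFun e2 w).1,
            Function.invFun e1 u (Function.invFun e2 w).2) = true)) := by
    intro u w
    by_cases h2 : (Function.invFun e2 w).1 = (Function.invFun e2 w).2
    · exact Or.inl ⟨True, fun x => ⟨fun _ => trivial, fun _ h => absurd h2 h⟩⟩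
    · by_cases h3 : Function.invFun e1 u (Function.invFun e2 w).1 =
          Function.invFun e1 u (Function.invFun e2 w).2
      · exact Or.inl ⟨False, fun x => ⟨fun h => (h h2).1 h3, fun h => h.elim⟩⟩
      · exact Or.inr ⟨_, fun x => ⟨fun h => (h h2).2, fun h _ => ⟨h3, h⟩⟩⟩
  have h2 := Shallow.exi fun u => Shallow.all (h1 u)
  rw [Nat.zero_add] at h2
  refine h2.congr fun x => ?_
  rw [hasClique_iff]
  constructor
  · rintro ⟨u, hu⟩
    refine ⟨Function.invFun e1 u, fun i j hij => ?_⟩
    have h3 := hu (e2 (i, j))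
    rw [Function.leftInverse_invFun e2.injective] at h3
    exact h3 hij
  · rintro ⟨φ, hφ⟩
    refine ⟨e1 φ, fun w => ?_⟩
    rw [Function.leftInverse_invFun e1.injective]
    exact fun h => hφ _ _ h

end form

end Pool.Agent.J6H11.Hlp
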