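import Pool.Agent.J6H11.Hlp.Hier
import Pool.Agent.J6H11.Hlp.Sub
import Pool.Agent.J6H27.MPH.Pl3
import Pool.Agent.Results.MP_9dcf40_lc.FewNegationsIncomparable

/-!
# Time and space with help
-/

set_option autoImplicit false
set_option linter.unusedSectionVars false

namespace Pool.Agent.J6H11.Hlp

open Finset DomAC0 Filter Pool.Agent.J6H27.MPH Pool.Agent.J6H7.Chain Pool.Agent.H520R2
  Pool.Agent.H520R2.NM

theorem space_help (ε : ℝ) (hε : 0 < ε) (a : ℕ) :
    ∃ δ0 : ℝ, 0 < δ0 ∧ ∀ δ : ℝ, 0 < δ → δ ≤ δ0 → ∀ᶠ N : ℕ in atTop,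
      ∃ h : (Fin N → Bool) → Prop,
        (∃ C : (Fin N → Bool) → Bool, MComp (VB (Fin N)) (N ^ 3) C ∧ ∀ x, h x ↔ C x = true) ∧
        ∀ (p : ℕ) [Fact p.Prime] (T : ℕ) (help : (Fin N → Bool) → Fin T → ZMod p)
          (l : (Fin T → ZMod p) → List ℕ) (V : (Fin T → ZMod p) → Type)
          (S : ∀ v, Strategy (Net (V v) (Fin N)) (l v)) (s : ℕ),
          (p : ℝ) ≤ (N : ℝ) ^ δ → (T : ℝ) ≤ (N : ℝ) ^ (1 - ε) → Help a help →
          (∀ v, ((((l v).map (· + 1)).prod : ℕ) : ℝ) ≤ (N : ℝ) ^ δ) →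
          (∀ v, (S v).All fun d => d.size ≤ s) →
          (∀ x, (S (help x)).run Net.Directed x ↔ h x) → (2 : ℝ) ^ ((N : ℝ) ^ δ) ≤ s := by
  obtain ⟨c0, hc0, hres⟩ := Pool.Agent.Results.MP_9dcf40_lc.FewNegationsIncomparable.result
    (1 / 2) (by norm_num)
  obtain ⟨δ1, hδ1, hδ18, htr⟩ := transferH ε hε a
  refine ⟨min δ1 (δ1 / 2 * min c0 (1 / 2)), lt_min hδ1 (mul_pos (by positivity)
    (lt_min hc0 (by norm_num))), ?_⟩
  intro δ hδpos hδ
  filter_upwards [(nn_tendsto hδ1).eventually hres, (nn_tendsto hδ1).eventually_gt_atTop 0,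
      nn_ge hδ1, htr, eventually_ge_atTop 3] with N h1 hn hge htr hN
  have hN1 : (1 : ℝ) ≤ N := by exact_mod_cast (by omega : 1 ≤ N)
  have hN0 : (0 : ℝ) < N := by linarith
  have hnN : nn δ1 N ≤ N := by
    have h2 : (N : ℝ) ^ δ1 ≤ (N : ℝ) ^ (1 : ℝ) :=
      Real.rpow_le_rpow_of_exponent_le hN1 (by linarith)
    rw [Real.rpow_one] at h2
    exact_mod_cast (nn_le δ1 N).trans h2
  obtain ⟨⟨R, s, t, -, hC, hS, -⟩, -⟩ := h1
  refine ⟨fun x => Derive R s t (maj (bk hn) x), ?_, ?_⟩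
  · classical
    obtain ⟨L, hL1, hL2, hL3⟩ := maj_prog' (N := N) hn
    refine ⟨_, MComp.smono (MComp.precomp hL1 hL3 hC) ?_, ?_⟩
    · have h6 : 3 * N ^ 2 ≤ N ^ 3 := by
        rw [pow_succ N 2, mul_comm]
        exact Nat.mul_le_mul_left _ hN
      have h7 : 3 * N ≤ N ^ 2 := by
        rw [sq]
        exact Nat.mul_le_mul_right _ hN
      nlinarith
    · intro x
      simp
  · intro p _ T help l V St m hp hT hH hl hSt hrun
    have hδ' : (N : ℝ) ^ δ ≤ (N : ℝ) ^ δ1 :=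
      Real.rpow_le_rpow_of_exponent_le hN1 (hδ.trans (min_le_left _ _))
    obtain ⟨σ, v, hσ, hv⟩ := htr p (nn δ1 N) T hn help (hp.trans hδ') (nn_le δ1 N) hT hH
    have hpow : ∀ e : ℝ, 0 ≤ e → (N : ℝ) ^ (δ1 / 2 * e) ≤ (nn δ1 N : ℝ) ^ e := by
      intro e he
      rw [Real.rpow_mul hN0.le]
      exact Real.rpow_le_rpow (by positivity) hge he
    have hmin1 : (N : ℝ) ^ δ ≤ (nn δ1 N : ℝ) ^ c0 := by
      refine le_trans ?_ (hpow c0 hc0.le)
      apply Real.rpow_le_rpow_of_exponent_le hN1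
      refine (hδ.trans (min_le_right _ _)).trans ?_
      exact mul_le_mul_of_nonneg_left (min_le_left _ _) (by positivity)
    have hmin2 : (N : ℝ) ^ δ ≤ (nn δ1 N : ℝ) ^ (1 - 1 / 2 : ℝ) := by
      refine le_trans ?_ (hpow _ (by norm_num))
      apply Real.rpow_le_rpow_of_exponent_le hN1
      refine (hδ.trans (min_le_right _ _)).trans ?_
      refine mul_le_mul_of_nonneg_left ((min_le_right _ _).trans (by norm_num)) (by positivity)
    have h2 := hS (l v) ((hl v).trans hmin2) m (V v) (smap (netSub σ) (St v))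
      (smap_all (fun d hd => (netSub_size σ d).trans hd) _ (hSt v)) ?_
    · exact le_trans (Real.rpow_le_rpow_of_exponent_le (by norm_num) hmin1) h2
    · intro x
      refine (smap_run (φ := netSub σ) (τ := sub σ) (fun d x => netSub_directed σ d x)
        (St v) x).trans ?_
      have h3 := hrun (sub σ x)
      rw [hv] at h3
      refine h3.trans ?_
      show Derive R s t (maj (bk hn) (sub σ x)) ↔ _
      rw [hσ]

theorem beyond_help (ε : ℝ) (hε : 0 < ε) (a : ℕ) :
    ∃ δ0 : ℝ, 0 < δ0 ∧ ∀ δ : ℝ, 0 < δ → δ ≤ δ0 → ∃ f : ∀ N : ℕ, (Fin N → Bool) → Prop,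
      (∀ᶠ N : ℕ in atTop, Shallow (Nat.log 2 N ^ 3) (f N)) ∧
      ∀ c : ℕ, ∀ᶠ N : ℕ in atTop, ∀ (p : ℕ) [Fact p.Prime] (T : ℕ)
        (help : (Fin N → Bool) → Fin T → ZMod p) (k g : ℕ) (l : (Fin T → ZMod p) → List ℕ)
        (S : ∀ v, Strategy
          {d : (Fin N → Bool) → Prop // Level g (N ^ c) k true d ∨ Level g (N ^ c) k false d} (l v)),
        (p : ℝ) ≤ (N : ℝ) ^ δ → (T : ℝ) ≤ (N : ℝ) ^ (1 - ε) → Help a help →
        2 * k ≤ Nat.log 2 (Nat.log 2 N) → 1 ≤ g →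
        (∀ v, ((((l v).map (· + 1)).prod * ((l v).sum + 1) * g ^ (k + 1) : ℕ) : ℝ) ≤
          (N : ℝ) ^ δ) →
        ¬ ∀ x, (S (help x)).run (fun d x => d.1 x) x ↔ f N x := by
  obtain ⟨f, hup, hlow⟩ := polylog_beyond
  obtain ⟨δ1, hδ1, hδ18, htr⟩ := transferH ε hε a
  refine ⟨min δ1 (δ1 / 2 * (1 / 2)), lt_min hδ1 (by positivity), ?_⟩
  intro δ hδpos hδ
  refine ⟨famM f (nn δ1), ?_, ?_⟩
  · filter_upwards [(nn_tendsto hδ1).eventually hup, (nn_tendsto hδ1).eventually_gt_atTop 0,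
      eventually_ge_atTop 16] with N h1 hn hN
    have hN1 : (1 : ℝ) ≤ N := by exact_mod_cast (by omega : 1 ≤ N)
    have hnN : nn δ1 N ^ 2 ≤ N := by
      have h2 : ((N : ℝ) ^ δ1) ^ 2 ≤ (N : ℝ) ^ (1 : ℝ) := by
        rw [← Real.rpow_natCast, ← Real.rpow_mul (by linarith)]
        exact Real.rpow_le_rpow_of_exponent_le hN1 (by push_cast; linarith)
      rw [Real.rpow_one] at h2
      have h3 : (nn δ1 N : ℝ) ^ 2 ≤ ((N : ℝ) ^ δ1) ^ 2 :=
        pow_le_pow_left₀ (by positivity) (nn_le δ1 N) 2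
      exact_mod_cast h3.trans h2
    have hlog : 2 * Nat.log 2 (nn δ1 N) ≤ Nat.log 2 N := by
      apply Nat.le_log_of_pow_le (by norm_num)
      refine le_trans ?_ hnN
      rw [mul_comm, pow_mul]
      exact Nat.pow_le_pow_left (Nat.pow_log_le_self 2 hn.ne') 2
    have hL4 : 4 ≤ Nat.log 2 N := Nat.le_log_of_pow_le (by norm_num) (by simpa using hN)
    refine ((Shallow.precomp (fun i => shallow_maj hn i) h1.1).lift ?_).congr fun x => ?_
    · generalize hA : Nat.log 2 (nn δ1 N) = A at *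
      generalize hB : Nat.log 2 N = B at *
      have h5 : 8 * A ^ 3 ≤ B ^ 3 := by
        calc 8 * A ^ 3 = (2 * A) ^ 3 := by ring
          _ ≤ B ^ 3 := Nat.pow_le_pow_left hlog 3
      have h6 : 8 * (B + 2) ^ 2 ≤ 7 * B ^ 3 := by
        obtain ⟨C, rfl⟩ := Nat.exists_eq_add_of_le hL4
        nlinarith [Nat.zero_le (C ^ 3), Nat.zero_le (C ^ 2)]
      omega
    · constructor
      · intro h
        exact ⟨hn, h⟩
      · rintro ⟨_, h⟩
        exact h
  · intro c
    obtain ⟨c', hc'⟩ := exists_nat_ge (2 * c / δ1)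
    obtain ⟨K, hK⟩ := exists_nat_ge (2 / δ1)
    filter_upwards [(nn_tendsto hδ1).eventually (hlow c' (1 / 2) (by norm_num)),
      (nn_tendsto hδ1).eventually_gt_atTop 0, nn_ge hδ1, htr,
      eventually_ge_atTop (2 ^ (K ^ 2))] with N h1 hn hge htr hN
    intro p _ T help k g l S hp hT hH hk hg hl hS
    have hN1 : (1 : ℝ) ≤ N := by
      exact_mod_cast (Nat.one_le_two_pow).trans hN
    have hN0 : (0 : ℝ) < N := by linarith
    have hδ' : (N : ℝ) ^ δ ≤ (N : ℝ) ^ δ1 :=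
      Real.rpow_le_rpow_of_exponent_le hN1 (hδ.trans (min_le_left _ _))
    obtain ⟨σ, v, hσ, hv⟩ := htr p (nn δ1 N) T hn help (hp.trans hδ') (nn_le δ1 N) hT hH
    have hpow : ∀ e : ℝ, 0 ≤ e → (N : ℝ) ^ (δ1 / 2 * e) ≤ (nn δ1 N : ℝ) ^ e := by
      intro e he
      rw [Real.rpow_mul hN0.le]
      exact Real.rpow_le_rpow (by positivity) hge he
    have hsize : N ^ c ≤ nn δ1 N ^ c' := by
      have h2 : (N : ℝ) ^ c ≤ (nn δ1 N : ℝ) ^ c' := by
        rw [← Real.rpow_natCast, ← Real.rpow_natCast]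
        refine le_trans ?_ (hpow c' (by positivity))
        apply Real.rpow_le_rpow_of_exponent_le hN1
        rw [div_le_iff₀ hδ1] at hc'
        linarith
      exact_mod_cast h2
    have hmin2 : (N : ℝ) ^ δ ≤ (nn δ1 N : ℝ) ^ (1 - 1 / 2 : ℝ) := by
      refine le_trans ?_ (hpow _ (by norm_num))
      apply Real.rpow_le_rpow_of_exponent_le hN1
      refine (hδ.trans (min_le_right _ _)).trans ?_
      exact mul_le_mul_of_nonneg_left (by norm_num) (by positivity)
    have hkn : k ≤ Nat.log 2 (Nat.log 2 (nn δ1 N)) := by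
      have hL0 : Nat.log 2 N ≠ 0 ∨ k = 0 := by
        by_cases h0 : Nat.log 2 N = 0
        · right
          rw [h0] at hk
          simp at hk
          omega
        · exact Or.inl h0
      rcases hL0 with hL0 | hL0
      · apply Nat.le_log_of_pow_le (by norm_num)
        apply Nat.le_log_of_pow_le (by norm_num)
        have hLK : K ^ 2 ≤ Nat.log 2 N := Nat.le_log_of_pow_le (by norm_num) hN
        have h4k : 2 ^ k * 2 ^ k ≤ Nat.log 2 N := by
          rw [← pow_add, ← two_mul]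
          exact Nat.pow_le_of_le_log hL0 hk
        -- `2 ^ k * K ≤ log N`
        have h5 : 2 ^ k * K ≤ Nat.log 2 N := by
          rcases Nat.le_total (2 ^ k) K with h | h
          · exact (Nat.mul_le_mul_right K h).trans (by rw [← sq]; exact hLK)
          · exact (Nat.mul_le_mul_left _ h).trans h4k
        have h6 : ((2 ^ k : ℕ) : ℝ) ≤ Nat.log 2 N * (δ1 / 2) := by
          have h7 : ((2 ^ k : ℕ) : ℝ) * (2 / δ1) ≤ Nat.log 2 N := by
            refine (mul_le_mul_of_nonneg_left hK (Nat.cast_nonneg _)).trans ?_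
            exact_mod_cast h5
          rw [mul_div_assoc', div_le_iff₀ hδ1] at h7
          linarith
        have h8 : ((2 ^ (2 ^ k) : ℕ) : ℝ) ≤ nn δ1 N := by
          refine le_trans ?_ hge
          have h9 : ((2 : ℝ) ^ (Nat.log 2 N : ℝ)) ^ (δ1 / 2) ≤ (N : ℝ) ^ (δ1 / 2) := by
            apply Real.rpow_le_rpow (by positivity) _ (by positivity)
            rw [Real.rpow_natCast]
            exact_mod_cast Nat.pow_log_le_self 2 (by
              rintro rfl
              simp at hL0)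
          refine le_trans ?_ h9
          rw [← Real.rpow_mul (by norm_num)]
          push_cast
          rw [← Real.rpow_natCast]
          exact Real.rpow_le_rpow_of_exponent_le (by norm_num) (by exact_mod_cast h6)
        exact_mod_cast h8
      · rw [hL0]
        exact Nat.zero_le _
    let φ : {d : (Fin N → Bool) → Prop // Level g (N ^ c) k true d ∨ Level g (N ^ c) k false d} →
        {d : (Fin (nn δ1 N) → Bool) → Prop // Level g (nn δ1 N ^ c') k true d ∨
          Level g (nn δ1 N ^ c') k false d} := fun d =>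
      ⟨fun x => d.1 (sub σ x), d.2.imp (fun h => Level.smono hsize (h.subst σ))
        (fun h => Level.smono hsize (h.subst σ))⟩
    refine (h1 k g hkn hg).2 (l v) (smap φ (S v)) ((hl v).trans hmin2) fun x => ?_
    have h2 := smap_run (φ := φ) (acc := fun d x => d.1 x) (acc' := fun d x => d.1 x)
      (τ := sub σ) (fun d x => Iff.rfl) (S v) x
    refine h2.trans ?_
    have h3 := hS (sub σ x)
    rw [hv] at h3
    refine h3.trans ?_
    constructor
    · rintro ⟨_, h⟩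
      rwa [hσ] at h
    · intro h
      refine ⟨hn, ?_⟩
      rwa [hσ]

end Pool.Agent.J6H11.Hlp
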