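import Pool.Agent.J6H11.Hlp.Embed

/-!
# The choice of the parameters
-/

set_option autoImplicit false
set_option linter.unusedSectionVars false

namespace Pool.Agent.J6H11.Hlp

open Finset DomAC0 Filter

/-- the blocks: `v` belongs to the block `v % n` -/
def bk {N n : ℕ} (hn : 0 < n) (v : Fin N) : Fin n := ⟨v % n, Nat.mod_lt _ hn⟩

theorem bk_card {N n : ℕ} (hn : 0 < n) (i : Fin n) : N / n ≤ (blk (bk (N := N) hn) i).card := by
  have hlt : ∀ k, k < N / n → i + n * k < N := by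
    intro k hk
    have h1 : (k + 1) * n ≤ N := (Nat.le_div_iff_mul_le hn).1 hk
    have h2 := i.2
    nlinarith
  calc N / n = (univ : Finset (Fin (N / n))).card := by simp
    _ ≤ (blk (bk (N := N) hn) i).card := by
      refine card_le_card_of_injOn (fun k => ⟨i + n * k, hlt k k.2⟩) ?_ ?_
      · intro k _
        rw [mem_coe, blk, mem_filter]
        refine ⟨mem_univ _, Fin.ext ?_⟩
        show (i + n * k) % n = i
        rw [Nat.add_mul_mod_self_left]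
        exact Nat.mod_eq_of_lt i.2
      · intro k _ l _ hkl
        simp only [Fin.mk.injEq, add_right_inj] at hkl
        exact Fin.ext (Nat.eq_of_mul_eq_mul_left hn hkl)

theorem ev (c : ℝ) {s e : ℝ} (hs : 0 < s) (he : 0 < e) :
    ∀ᶠ N : ℕ in atTop, c * (N : ℝ) ^ (-s) ≤ e := by
  have h1 : Tendsto (fun N : ℕ => c * (N : ℝ) ^ (-s)) atTop (nhds (c * 0)) :=
    ((tendsto_rpow_neg_atTop hs).comp tendsto_natCast_atTop_atTop).const_mul c
  rw [mul_zero] at h1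
  filter_upwards [h1.eventually (gt_mem_nhds he)] with N hN
  exact hN.le

theorem transfer1 (ε : ℝ) (hε : 0 < ε) (hε1 : ε ≤ 1) (a : ℕ) : ∃ δ : ℝ, 0 < δ ∧ δ ≤ 1 / 8 ∧
    ∀ᶠ N : ℕ in atTop, ∀ (p : ℕ) [Fact p.Prime] (n T : ℕ) (hn : 0 < n) (C : Circuit (Fin N))
      (w : Fin T → Fin N ⊕ Fin C.size → ZMod p), (p : ℝ) ≤ (N : ℝ) ^ δ → (n : ℝ) ≤ (N : ℝ) ^ δ →
      (T : ℝ) ≤ (N : ℝ) ^ (1 - ε) → C.size ≤ N ^ a → (∀ j v, w j v ≠ 0 → C.nodeDepth v ≤ a) →
      ∃ σ : Fin N → Bool ⊕ Fin n, (∀ x, maj (bk hn) (sb σ x) = x) ∧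
        ∀ x x' j, msum C (w j) (sb σ x) = msum C (w j) (sb σ x') := by
  obtain ⟨ε1, hε1d⟩ : ∃ ε1 : ℝ, ε1 = ε / (4 * (a + 1)) := ⟨_, rfl⟩
  have hε10 : 0 < ε1 := by rw [hε1d]; positivity
  obtain ⟨h, hhd⟩ : ∃ h : ℕ, h = ⌈(4 * a + 8) / ε1⌉₊ + 1 := ⟨_, rfl⟩
  have hh : 1 ≤ h := by omega
  have hhε : (4 * a + 8 : ℝ) ≤ ε1 * h := by
    have h1 : (4 * a + 8) / ε1 ≤ h := by
      rw [hhd]
      push_cast
      linarith [Nat.le_ceil ((4 * a + 8) / ε1)]
    rw [div_le_iff₀ hε10] at h1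
    linarith
  obtain ⟨δ, hδd⟩ : ∃ δ : ℝ, δ = ε / (8 * (h + 2)) := ⟨_, rfl⟩
  have hδ0 : 0 < δ := by rw [hδd]; positivity
  have hδh : δ * (h + 2) = ε / 8 := by
    rw [hδd]
    field_simp
  have hδ2 : δ ≤ ε / 16 := by
    have : (1 : ℝ) ≤ h := by exact_mod_cast hh
    nlinarith
  have hε1a : ε1 * a ≤ ε / 4 := by
    have : ε1 * (a + 1) = ε / 4 := by
      rw [hε1d]
      field_simp
    linarith
  refine ⟨δ, hδ0, by linarith, ?_⟩
  filter_upwards [ev 3 hε10 one_pos, ev (12 * h) (by positivity : 0 < ε1 / 2) one_pos,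
    ev (3 * a) one_pos (by norm_num : (0 : ℝ) < 1 / 4),
    ev 64 (by norm_num : (0 : ℝ) < 1 / 4) (by norm_num : (0 : ℝ) < 1 / 4),
    ev (8 * (h * 2 ^ h + 1)) (by positivity : 0 < ε / 2) one_pos,
    ev 8 (by positivity : 0 < ε / 8) one_pos, eventually_ge_atTop 2] with N c1 c2 c3 c4 c5 c6 hN2
  intro p _ n T hn C w hp hnN hT hC hw
  obtain ⟨x, hx⟩ : ∃ x : ℝ, x = N := ⟨_, rfl⟩
  rw [← hx] at c1 c2 c3 c4 c5 c6 hp hnN hT
  have hx2 : 2 ≤ x := by
    rw [hx]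
    exact_mod_cast hN2
  have hx0 : 0 < x := by linarith
  have hx1 : 1 ≤ x := by linarith
  have hn1 : (1 : ℝ) ≤ n := by exact_mod_cast hn
  -- powers
  have hpow : ∀ s t : ℝ, s ≤ t → x ^ s ≤ x ^ t := fun s t hst =>
    Real.rpow_le_rpow_of_exponent_le hx1 hst
  have hpos : ∀ s : ℝ, 0 < x ^ s := fun s => Real.rpow_pos_of_pos hx0 s
  obtain ⟨q, hq⟩ : ∃ q : ℝ, q = x ^ (-ε1) := ⟨_, rfl⟩
  have hq0 : 0 < q := by rw [hq]; exact hpos _
  have hqa : x ^ (-(ε / 4)) ≤ q ^ a := by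
    rw [hq, ← Real.rpow_natCast, ← Real.rpow_mul hx0.le]
    exact hpow _ _ (by linarith)
  obtain ⟨m, hm⟩ : ∃ m : ℕ, m = N / n := ⟨_, rfl⟩
  have hnx : (n : ℝ) ≤ x ^ (1 - (1 - δ)) := by
    rw [show 1 - (1 - δ) = δ by ring]
    exact hnN
  have hmreal : x ^ (1 - δ) / 2 ≤ m := by
    have h1 : x / n < m + 1 := by
      rw [hx, hm]
      have := Nat.lt_floor_add_one ((N : ℝ) / n)
      rwa [Nat.floor_div_eq_div] at this
    have h2 : x ^ (1 - δ) ≤ x / n := by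
      rw [le_div_iff₀ (by linarith)]
      calc x ^ (1 - δ) * n ≤ x ^ (1 - δ) * x ^ δ := mul_le_mul_of_nonneg_left hnN (hpos _).le
        _ = x := by rw [← Real.rpow_add hx0]; simp
    have h3 : 2 ≤ x ^ (1 - δ) := by
      have h4 : 8 * x ^ (-(ε / 8)) * x ^ (1 - δ) ≤ 1 * x ^ (1 - δ) :=
        mul_le_mul_of_nonneg_right c6 (hpos _).le
      have h5 : 1 ≤ x ^ (-(ε / 8)) * x ^ (1 - δ) := by
        rw [← Real.rpow_add hx0]
        exact Real.one_le_rpow hx1 (by linarith)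
      linarith
    linarith
  have hm1 : 1 ≤ m := by
    have h4 : (0 : ℝ) < m := lt_of_lt_of_le (by have := hpos (1 - δ); linarith) hmreal
    exact_mod_cast h4
  -- the number of stars
  have hL : x ^ (1 - 3 * ε / 8) / 2 ≤ q ^ a * m := by
    calc x ^ (1 - 3 * ε / 8) / 2 ≤ x ^ (-(ε / 4) + (1 - δ)) / 2 := by
          have := hpow (1 - 3 * ε / 8) (-(ε / 4) + (1 - δ)) (by linarith)
          linarith
      _ = x ^ (-(ε / 4)) * (x ^ (1 - δ) / 2) := by rw [Real.rpow_add hx0]; ring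
      _ ≤ q ^ a * m := mul_le_mul hqa hmreal (by have := hpos (1 - δ); linarith) (by positivity)
  have hL8 : 8 ≤ x ^ (1 - 3 * ε / 8) := by
    have h4 : 8 * x ^ (-(ε / 8)) * x ^ (1 - 3 * ε / 8) ≤ 1 * x ^ (1 - 3 * ε / 8) :=
      mul_le_mul_of_nonneg_right c6 (hpos _).le
    have h5 : 1 ≤ x ^ (-(ε / 8)) * x ^ (1 - 3 * ε / 8) := by
      rw [← Real.rpow_add hx0]
      exact Real.one_le_rpow hx1 (by linarith)
    linarith
  refine embed (p := p) (K := ⌊q ^ a * m / 4⌋₊) (bk hn) C w hw hq0 (by linarith) hh hm1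
    (fun i => by rw [hm]; exact bk_card hn i) ?_ (Nat.floor_le (by positivity)) (by linarith) ?_
  · -- the probability
    have p1 : (a : ℝ) * ((C.size * (Fintype.card (Fin N) + C.size + 1) : ℕ) : ℝ) *
        (12 * h * q) ^ (h + 1) ≤ 1 / 4 := by
      have e1 : 12 * h * q ≤ x ^ (-(ε1 / 2)) := by
        have : x ^ (-ε1) = x ^ (-(ε1 / 2)) * x ^ (-(ε1 / 2)) := by
          rw [← Real.rpow_add hx0]
          congr 1
          ring
        rw [hq, this, ← mul_assoc]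
        exact mul_le_of_le_one_left (hpos _).le c2
      have e2 : (12 * h * q) ^ (h + 1) ≤ x ^ (-(2 * a + 2 : ℝ)) := by
        refine (pow_le_pow_left₀ (by positivity) e1 _).trans ?_
        rw [← Real.rpow_natCast, ← Real.rpow_mul hx0.le]
        apply hpow
        push_cast
        nlinarith
      have e3 : ((C.size * (Fintype.card (Fin N) + C.size + 1) : ℕ) : ℝ) ≤
          3 * x ^ (2 * a + 1 : ℝ) := by
        have hs : (C.size : ℝ) ≤ x ^ a := by
          rw [hx]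
          exact_mod_cast hC
        have hxa : 1 ≤ x ^ a := one_le_pow₀ hx1
        rw [Fintype.card_fin]
        push_cast
        rw [← hx]
        have e4 : x ^ (2 * a + 1 : ℝ) = x ^ a * (x ^ a * x) := by
          rw [← pow_succ, ← pow_add, ← Real.rpow_natCast]
          congr 1
          push_cast
          ring
        rw [e4]
        have e5 : x + C.size + 1 ≤ 3 * (x ^ a * x) := by
          have e6 : x ^ a ≤ x ^ a * x := le_mul_of_one_le_right (by positivity) hx1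
          have e7 : x ≤ x ^ a * x := le_mul_of_one_le_left hx0.le hxa
          linarith
        calc (C.size : ℝ) * (x + C.size + 1) ≤ x ^ a * (3 * (x ^ a * x)) :=
              mul_le_mul hs e5 (by positivity) (by positivity)
          _ = 3 * (x ^ a * (x ^ a * x)) := by ring
      calc (a : ℝ) * ((C.size * (Fintype.card (Fin N) + C.size + 1) : ℕ) : ℝ) *
          (12 * h * q) ^ (h + 1) ≤ a * (3 * x ^ (2 * a + 1 : ℝ)) * x ^ (-(2 * a + 2 : ℝ)) := by
            gcongr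
        _ = 3 * a * (x ^ (2 * a + 1 : ℝ) * x ^ (-(2 * a + 2 : ℝ))) := by ring
        _ = 3 * a * x ^ (-(1 : ℝ)) := by
            rw [← Real.rpow_add hx0]
            congr 2
            ring
        _ ≤ 1 / 4 := c3
    have p2 : (n : ℝ) * (32 / ((q ^ a) ^ 2 * m)) ≤ 1 / 4 := by
      have e1 : x ^ (-(ε / 4)) * (x ^ (1 - 3 * ε / 8) / 2) ≤ (q ^ a) ^ 2 * m := by
        calc x ^ (-(ε / 4)) * (x ^ (1 - 3 * ε / 8) / 2) ≤ q ^ a * (q ^ a * m) :=
              mul_le_mul hqa hL (by have := hpos (1 - 3 * ε / 8); linarith) (by positivity)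
          _ = (q ^ a) ^ 2 * m := by ring
      have e2 : 0 < x ^ (-(ε / 4)) * (x ^ (1 - 3 * ε / 8) / 2) := by
        have := hpos (-(ε / 4))
        have := hpos (1 - 3 * ε / 8)
        positivity
      calc (n : ℝ) * (32 / ((q ^ a) ^ 2 * m)) ≤
          x ^ δ * (32 / (x ^ (-(ε / 4)) * (x ^ (1 - 3 * ε / 8) / 2))) := by
            refine mul_le_mul hnN (div_le_div_of_nonneg_left (by norm_num) e2 e1) (by positivity)
              (hpos _).le
        _ = 64 * (x ^ δ / (x ^ (-(ε / 4)) * x ^ (1 - 3 * ε / 8))) := by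
            have := hpos (-(ε / 4))
            have := hpos (1 - 3 * ε / 8)
            field_simp
            ring
        _ = 64 * x ^ (δ - (-(ε / 4) + (1 - 3 * ε / 8))) := by
            rw [← Real.rpow_add hx0, ← Real.rpow_sub hx0]
        _ ≤ 64 * x ^ (-(1 / 4) : ℝ) := by
            refine mul_le_mul_of_nonneg_left (hpow _ _ ?_) (by norm_num)
            linarith
        _ ≤ 1 / 4 := c4
    linarith
  · -- the number of conditions
    have hK : q ^ a * m / 4 < (⌊q ^ a * m / 4⌋₊ : ℝ) + 1 := Nat.lt_floor_add_one _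
    have e1 : ((T * (n + 1) ^ h * ((p - 1) * h) : ℕ) : ℝ) ≤
        h * 2 ^ h * x ^ (1 - 7 * ε / 8) := by
      have f1 : ((p - 1 : ℕ) : ℝ) ≤ x ^ δ := by
        refine le_trans ?_ hp
        exact_mod_cast Nat.sub_le p 1
      have f2 : ((n : ℝ) + 1) ^ h ≤ 2 ^ h * x ^ (δ * h) := by
        have : (n : ℝ) + 1 ≤ 2 * x ^ δ := by linarith
        calc ((n : ℝ) + 1) ^ h ≤ (2 * x ^ δ) ^ h := pow_le_pow_left₀ (by positivity) this h
          _ = 2 ^ h * x ^ (δ * h) := by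
            rw [mul_pow, ← Real.rpow_natCast (x ^ δ), ← Real.rpow_mul hx0.le]
      push_cast
      calc (T : ℝ) * ((n : ℝ) + 1) ^ h * (((p - 1 : ℕ) : ℝ) * h) ≤
          x ^ (1 - ε) * (2 ^ h * x ^ (δ * h)) * (x ^ δ * h) := by
            gcongr
        _ = h * 2 ^ h * (x ^ (1 - ε) * x ^ (δ * h) * x ^ δ) := by ring
        _ = h * 2 ^ h * x ^ (1 - ε + δ * h + δ) := by
            rw [← Real.rpow_add hx0, ← Real.rpow_add hx0]
        _ ≤ h * 2 ^ h * x ^ (1 - 7 * ε / 8) := by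
            refine mul_le_mul_of_nonneg_left (hpow _ _ ?_) (by positivity)
            nlinarith
    have e2 : h * 2 ^ h * x ^ (1 - 7 * ε / 8) + 1 ≤ x ^ (1 - 3 * ε / 8) / 8 := by
      have g1 : 1 ≤ x ^ (1 - 7 * ε / 8) := Real.one_le_rpow hx1 (by linarith)
      have g2 : x ^ (1 - 7 * ε / 8) = x ^ (-(ε / 2)) * x ^ (1 - 3 * ε / 8) := by
        rw [← Real.rpow_add hx0]
        congr 1
        ring
      have g3 : 8 * (h * 2 ^ h + 1) * x ^ (1 - 7 * ε / 8) ≤ x ^ (1 - 3 * ε / 8) := by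
        rw [g2, ← mul_assoc]
        exact mul_le_of_le_one_left (hpos _).le c5
      have g4 : (0 : ℝ) ≤ h * 2 ^ h := by positivity
      nlinarith
    have e3 : ((T * (n + 1) ^ h * ((p - 1) * h) : ℕ) : ℝ) < (⌊q ^ a * m / 4⌋₊ : ℝ) := by
      linarith
    exact_mod_cast e3

/-- **Transfer theorem.** -/
theorem transfer (ε : ℝ) (hε : 0 < ε) (a : ℕ) : ∃ δ : ℝ, 0 < δ ∧ δ ≤ 1 / 8 ∧
    ∀ᶠ N : ℕ in atTop, ∀ (p : ℕ) [Fact p.Prime] (n T : ℕ) (hn : 0 < n) (C : Circuit (Fin N))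
      (w : Fin T → Fin N ⊕ Fin C.size → ZMod p), (p : ℝ) ≤ (N : ℝ) ^ δ → (n : ℝ) ≤ (N : ℝ) ^ δ →
      (T : ℝ) ≤ (N : ℝ) ^ (1 - ε) → C.size ≤ N ^ a → (∀ j v, w j v ≠ 0 → C.nodeDepth v ≤ a) →
      ∃ σ : Fin N → Bool ⊕ Fin n, (∀ x, maj (bk hn) (sb σ x) = x) ∧
        ∀ x x' j, msum C (w j) (sb σ x) = msum C (w j) (sb σ x') := by
  obtain ⟨δ, h1, h2, h3⟩ := transfer1 (min ε 1) (lt_min hε one_pos) (min_le_right _ _) a
  refine ⟨δ, h1, h2, ?_⟩
  filter_upwards [h3, eventually_ge_atTop 1] with N h hN p _ n T hn C w hp hnN hT hC hw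
  refine h p n T hn C w hp hnN (hT.trans ?_) hC hw
  exact Real.rpow_le_rpow_of_exponent_le (by exact_mod_cast hN) (by linarith [min_le_left ε 1])

end Pool.Agent.J6H11.Hlp
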