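import Pool.Agent.J6H11.Hlp.Cube
import Pool.Agent.H592R3.Collapse

/-!
# Random restrictions
-/

set_option autoImplicit false
set_option linter.unusedSectionVars false

namespace Pool.Agent.J6H11.Hlp

open Finset DomAC0 H592R3
open H568R2 hiding Good collapse switching

section
variable {p : ℕ} [Fact p.Prime] {V : Type} [DecidableEq V]

theorem DT_mem {h : ℕ} : ∀ {f : (V → Bool) → Bool}, DT h f →
    (fun x => if f x = true then (1 : ZMod p) else 0) ∈ Deg V p h := by
  have hconst : ∀ {f : (V → Bool) → Bool} {h : ℕ}, (∃ b, ∀ x, f x = b) →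
      (fun x => if f x = true then (1 : ZMod p) else 0) ∈ Deg V p h := by
    rintro f h ⟨b, hb⟩
    simp only [hb]
    exact const_mem _ _
  induction h with
  | zero =>
    intro f hf
    exact hconst hf
  | succ h ih =>
    intro f hf
    rcases hf with hf | ⟨i, hi⟩
    · exact hconst hf
    · have h1 := ih (hi true)
      have h0 := ih (hi false)
      have hm : mon p {i} ∈ Deg V p 1 := mon_mem (by simp)
      have h2 := mul_mem hm h1
      have h3 := mul_mem (Submodule.sub_mem _ (Deg_mono (Nat.zero_le 1) one_mem) hm) h0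
      rw [add_comm] at h2 h3
      have h4 := Submodule.add_mem _ h2 h3
      refine (congrArg (· ∈ Deg V p (h + 1)) (funext fun x => ?_)).mp h4
      simp only [Pi.add_apply, Pi.mul_apply, Pi.sub_apply, Pi.one_apply, mon, mem_singleton,
        forall_eq]
      by_cases hx : x i = true
      · rw [if_pos hx, sub_self, zero_mul, add_zero, one_mul]
        rw [show Function.update x i true = x by rw [← hx, Function.update_eq_self]]
      · have hx' : x i = false := by simpa using hx
        rw [if_neg hx, zero_mul, zero_add, sub_zero, one_mul]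
        rw [show Function.update x i false = x by rw [← hx', Function.update_eq_self]]

variable [Fintype V]

/-- weighted number modulo `p` of the nodes with value one -/
noncomputable def msum (C : Circuit V) (w : V ⊕ Fin C.size → ZMod p) (x : V → Bool) : ZMod p :=
  ∑ v, w v * if C.nodeVal x v = true then 1 else 0

theorem msum_mem {C : Circuit V} {c h : ℕ} (hh : 1 ≤ h) {ρ : Restr V} (hG : Good C id h c ρ)
    {w : V ⊕ Fin C.size → ZMod p} (hw : ∀ v, w v ≠ 0 → C.nodeDepth v ≤ c) :
    (fun x => msum C w (ov ρ x)) ∈ Deg V p h := by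
  have e : (fun x => msum C w (ov ρ x)) =
      ∑ v, (w v) • (fun x => if C.nodeVal (ov ρ x) v = true then (1 : ZMod p) else 0) := by
    funext x
    simp [msum, Finset.sum_apply]
  rw [e]
  refine Submodule.sum_mem _ fun v _ => ?_
  by_cases h0 : w v = 0
  · rw [h0, zero_smul]
    exact Submodule.zero_mem _
  · apply Submodule.smul_mem
    have hd := hw v h0
    have hDT : DT h (rs (fun x => C.nodeVal (id x) v) ρ) := by
      cases v with
      | inl i =>
        apply DT.of_junta_one _ hh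
        apply Junta.rs
        exact ⟨{i}, by simp, fun x y hxy => hxy i (mem_singleton_self i)⟩
      | inr g =>
        have := hG g hd (pl C g).length
        rw [List.take_length] at this
        have h2 : (fun x => C.nodeVal (id x) (Sum.inr g)) = fun x => gfun C g (id x) (pl C g) := by
          funext x
          exact gateVal_eq C (id x) g
        rw [h2]
        exact this
    exact DT_mem hDT

theorem Ex_sq {A : Type} [Fintype A] {w : A → ℝ} (hw : ∑ a, w a = 1) (η : A → ℝ)
    (h0 : ∑ a, w a * η a = 0) (S : Finset V) :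
    Ex w (fun ρ : V → A => (∑ v ∈ S, η (ρ v)) ^ 2) = S.card * ∑ a, w a * η a ^ 2 := by
  induction S using Finset.induction_on with
  | empty =>
    simp only [sum_empty, card_empty, Nat.cast_zero, zero_mul]
    rw [show (0 : ℝ) ^ 2 = 0 by norm_num, Ex_const hw]
  | insert v S hv ih =>
    have e1 : ∀ ρ : V → A, (∑ u ∈ insert v S, η (ρ u)) ^ 2 =
        (∑ u ∈ S, η (ρ u)) ^ 2 + (2 * (η (ρ v) * ∑ u ∈ S, η (ρ u)) + η (ρ v) ^ 2) := by
      intro ρ
      rw [sum_insert hv]
      ring
    simp only [e1]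
    rw [Ex_add, Ex_add, Ex_smul, ih]
    have e2 : Ex w (fun ρ : V → A => η (ρ v) * ∑ u ∈ S, η (ρ u)) = 0 := by
      rw [Ex_resample hw _ v]
      have : ∀ ρ : V → A, ∑ a, w a * (η (Function.update ρ v a v) *
          ∑ u ∈ S, η (Function.update ρ v a u)) = 0 := by
        intro ρ
        have e3 : ∀ a, ∑ u ∈ S, η (Function.update ρ v a u) = ∑ u ∈ S, η (ρ u) := by
          intro a
          refine sum_congr rfl fun u hu => ?_
          rw [Function.update_of_ne]
          rintro rfl
          exact hv hu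
        simp only [Function.update_self, e3]
        have e4 : ∀ a, w a * (η a * ∑ u ∈ S, η (ρ u)) = w a * η a * ∑ u ∈ S, η (ρ u) :=
          fun a => by ring
        simp only [e4]
        rw [← sum_mul, h0, zero_mul]
      simp only [this]
      rw [Ex_const hw]
    have e5 : Ex w (fun ρ : V → A => η (ρ v) ^ 2) = ∑ a, w a * η a ^ 2 := by
      rw [Ex_resample hw _ v]
      simp only [Function.update_self]
      rw [Ex_const hw]
    rw [e2, e5, card_insert_of_notMem hv]
    push_cast
    ring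

/-- one minus minus one -/
noncomputable def xi : Option Bool → ℝ
  | none => 0
  | some true => 1
  | some false => -1

/-- the centred number of stars -/
noncomputable def et (Q : ℝ) : Option Bool → ℝ
  | none => 1 - Q
  | some _ => -Q

theorem xi_sum (Q : ℝ) : ∑ a, wq Q a * xi a = 0 := by
  rw [Fintype.sum_option, Fintype.sum_bool]
  unfold wq xi
  ring

theorem et_sum (Q : ℝ) : ∑ a, wq Q a * et Q a = 0 := by
  rw [Fintype.sum_option, Fintype.sum_bool]
  unfold wq et
  ring

theorem xi_sq {Q : ℝ} (h0 : 0 ≤ Q) : ∑ a, wq Q a * xi a ^ 2 ≤ 1 := by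
  have h1 := h0
  rw [Fintype.sum_option, Fintype.sum_bool]
  unfold wq xi
  nlinarith

theorem et_sq {Q : ℝ} (h0 : 0 ≤ Q) (h1 : Q ≤ 1) : ∑ a, wq Q a * et Q a ^ 2 ≤ 1 := by
  have h2 := mul_nonneg h0 (sub_nonneg.2 h1)
  rw [Fintype.sum_option, Fintype.sum_bool]
  unfold wq et
  nlinarith

/-- the block of `i` -/
def blk {n : ℕ} (b : V → Fin n) (i : Fin n) : Finset V := univ.filter fun v => b v = i

open Classical in
theorem exists_good {n : ℕ} (C : Circuit V) (b : V → Fin n) {q : ℝ} (hq0 : 0 < q) (hq : q ≤ 1 / 3)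
    {c h m : ℕ} (hh : 1 ≤ h) (hm0 : 0 < m) (hm : ∀ i, m ≤ (blk b i).card)
    (hsum : c * ((C.size * (Fintype.card V + C.size + 1) : ℕ) : ℝ) * (12 * h * q) ^ (h + 1) +
      n * (32 / ((q ^ c) ^ 2 * m)) < 1) :
    ∃ ρ : Restr V, Good C id h c ρ ∧ ∀ i,
      |∑ v ∈ blk b i, xi (ρ v)| ≤ q ^ c * (blk b i).card / 4 ∧
      |∑ v ∈ blk b i, et (q ^ c) (ρ v)| ≤ q ^ c * (blk b i).card / 4 := by
  by_contra hcon
  push Not at hcon
  have hQ0 : 0 < q ^ c := pow_pos hq0 c
  have hQ1 : q ^ c ≤ 1 := pow_le_one₀ hq0.le (by linarith)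
  obtain ⟨Q, hQ⟩ : ∃ Q : ℝ, Q = q ^ c := ⟨_, rfl⟩
  have hcol := collapse C (id : (V → Bool) → (V → Bool)) (fun j => ⟨{j}, by simp, fun x y hxy =>
    hxy j (mem_singleton_self j)⟩) hq0.le hq hh c
  rw [← hQ] at hcol hQ0 hQ1 hsum hcon
  have hw0 : ∀ a, 0 ≤ wq Q a := wq_nonneg hQ0.le hQ1
  have hcard : ∀ i, (0 : ℝ) < (blk b i).card := fun i => by
    have := hm i
    exact_mod_cast lt_of_lt_of_le hm0 this
  have hbad : ∀ ρ : Restr V, (1 : ℝ) ≤ (if ¬ Good C id h c ρ then (1 : ℝ) else 0) +
      ∑ i, ((16 / (Q * (blk b i).card) ^ 2) * (∑ v ∈ blk b i, xi (ρ v)) ^ 2 +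
        (16 / (Q * (blk b i).card) ^ 2) * (∑ v ∈ blk b i, et Q (ρ v)) ^ 2) := by
    intro ρ
    have hnn : ∀ i ∈ (univ : Finset (Fin n)), 0 ≤
        ((16 / (Q * (blk b i).card) ^ 2) * (∑ v ∈ blk b i, xi (ρ v)) ^ 2 +
        (16 / (Q * (blk b i).card) ^ 2) * (∑ v ∈ blk b i, et Q (ρ v)) ^ 2) := fun i _ => by positivity
    by_cases hG : Good C id h c ρ
    · obtain ⟨i, hi⟩ := hcon ρ hG
      rw [if_neg (not_not.2 hG), zero_add]
      refine le_trans ?_ (single_le_sum hnn (mem_univ i))
      have hci := hcard i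
      have key : ∀ s : ℝ, Q * (blk b i).card / 4 < |s| → 1 ≤ 16 / (Q * (blk b i).card) ^ 2 * s ^ 2 := by
        intro s hs
        rw [div_mul_eq_mul_div, le_div_iff₀ (by positivity), one_mul, ← sq_abs s]
        have h1 : Q * (blk b i).card < 4 * |s| := by linarith
        have h2 : (Q * (blk b i).card) ^ 2 ≤ (4 * |s|) ^ 2 := pow_le_pow_left₀ (by positivity) h1.le 2
        linarith [h2, (by ring : (4 * |s|) ^ 2 = 16 * |s| ^ 2)]
      by_cases h1 : |∑ v ∈ blk b i, xi (ρ v)| ≤ Q * (blk b i).card / 4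
      · have h2 := key _ (hi h1)
        have h3 : 0 ≤ 16 / (Q * (blk b i).card : ℝ) ^ 2 * (∑ v ∈ blk b i, xi (ρ v)) ^ 2 := by
          positivity
        linarith
      · have h2 := key _ (not_le.1 h1)
        have h3 : 0 ≤ 16 / (Q * (blk b i).card : ℝ) ^ 2 * (∑ v ∈ blk b i, et Q (ρ v)) ^ 2 := by
          positivity
        linarith
    · rw [if_pos hG]
      have := sum_nonneg hnn
      linarith
  have h1 := Ex_mono hw0 hbad
  rw [Ex_const (wq_sum Q), Ex_add, Ex_sum] at h1
  have h2 : ∀ i ∈ (univ : Finset (Fin n)), Ex (wq Q) (fun ρ : Restr V =>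
      ((16 / (Q * (blk b i).card) ^ 2) * (∑ v ∈ blk b i, xi (ρ v)) ^ 2 +
        (16 / (Q * (blk b i).card) ^ 2) * (∑ v ∈ blk b i, et Q (ρ v)) ^ 2)) ≤
      32 / (Q ^ 2 * m) := by
    intro i _
    have hci := hcard i
    rw [Ex_add, Ex_smul, Ex_smul, Ex_sq (wq_sum Q) xi (xi_sum Q),
      Ex_sq (wq_sum Q) (et Q) (et_sum Q)]
    have e1 := xi_sq hQ0.le
    have e2 := et_sq hQ0.le hQ1
    have e3 : 16 / (Q * (blk b i).card) ^ 2 * ((blk b i).card * ∑ a, wq Q a * xi a ^ 2) ≤
        16 / (Q * (blk b i).card) ^ 2 * ((blk b i).card * 1) := by gcongr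
    have e4 : 16 / (Q * (blk b i).card) ^ 2 * ((blk b i).card * ∑ a, wq Q a * et Q a ^ 2) ≤
        16 / (Q * (blk b i).card) ^ 2 * ((blk b i).card * 1) := by gcongr
    have e5 : 16 / (Q * (blk b i).card) ^ 2 * ((blk b i).card * 1) = 16 / (Q ^ 2 * (blk b i).card) := by
      field_simp
    have e6 : 16 / (Q ^ 2 * (blk b i).card) ≤ 16 / (Q ^ 2 * m) := by
      have : (m : ℝ) ≤ (blk b i).card := by exact_mod_cast hm i
      have hm0' : (0 : ℝ) < m := by exact_mod_cast hm0
      gcongr
    have e7 : 16 / (Q ^ 2 * (m : ℝ)) + 16 / (Q ^ 2 * m) = 32 / (Q ^ 2 * m) := by ring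
    linarith
  have h3 := sum_le_sum h2
  rw [sum_const, card_univ, Fintype.card_fin, nsmul_eq_mul] at h3
  linarith

end

end Pool.Agent.J6H11.Hlp
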